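import Pool.Agent.Y995.LG.Arc

/-!
The dimension formula.
-/

set_option autoImplicit false

namespace Pool.Agent.Y995.LG

open H984P H984N MeasureTheory Filter Topology
open scoped ENNReal NNReal

/-- Similarities preserve the dimension. -/
theorem dimH_sim {f : unitInterval → unitInterval} {A : Set unitInterval} {ρ : ℝ} (hρ : 0 < ρ)
    (h : ∀ s ∈ A, ∀ t ∈ A, dist (f s) (f t) = ρ * dist s t) : dimH (f '' A) = dimH A := by
  apply le_antisymm
  · have hK : ((Real.toNNReal ρ : ℝ≥0) : ℝ) = ρ := Real.coe_toNNReal _ hρ.le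
    have h1 : LipschitzOnWith (Real.toNNReal ρ) f A :=
      LipschitzOnWith.of_dist_le_mul (fun s hs t ht => by rw [hK]; exact le_of_eq (h s hs t ht))
    exact h1.dimH_image_le
  · rcases A.eq_empty_or_nonempty with h0 | ⟨a, ha⟩
    · rw [h0]
      simp
    have hinj : Set.InjOn f A := by
      intro s hs t ht hst
      have h2 := h s hs t ht
      rw [hst, dist_self] at h2
      have h3 : dist s t = 0 := by
        rcases mul_eq_zero.1 h2.symm with h4 | h4
        · exact absurd h4 hρ.ne'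
        · exact h4
      exact dist_eq_zero.1 h3
    have : Nonempty unitInterval := ⟨a⟩
    obtain ⟨g, hg⟩ : ∃ g : unitInterval → unitInterval, ∀ s ∈ A, g (f s) = s :=
      ⟨Function.invFunOn f A, fun s hs => hinj.leftInvOn_invFunOn hs⟩
    have hK : ((Real.toNNReal ρ⁻¹ : ℝ≥0) : ℝ) = ρ⁻¹ := Real.coe_toNNReal _ (inv_pos.2 hρ).le
    have h1 : LipschitzOnWith (Real.toNNReal ρ⁻¹) g (f '' A) := by
      refine LipschitzOnWith.of_dist_le_mul ?_
      rintro _ ⟨s, hs, rfl⟩ _ ⟨t, ht, rfl⟩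
      rw [hg s hs, hg t ht, h s hs t ht]
      refine le_of_eq ?_
      rw [hK, ← mul_assoc, inv_mul_cancel₀ hρ.ne', one_mul]
    have h2 : g '' (f '' A) = A := by
      ext x
      constructor
      · rintro ⟨_, ⟨s, hs, rfl⟩, rfl⟩
        rw [hg s hs]
        exact hs
      · intro hx
        exact ⟨f x, ⟨x, hx, rfl⟩, hg x hx⟩
    have h3 := h1.dimH_image_le
    rwa [h2] at h3

theorem dimH_trans (z : ℂ) (B : Set ℂ) : dimH ((fun w => z + w) '' B) = dimH B :=
  (isometry_add_left z).dimH_image B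

theorem uni (hA : S_ARC) (hC : S_COV) : S_UNI := by
  intro G p hG h0 hex hloc E hE
  obtain ⟨u, v, z, q, hi, hcov⟩ := hC G p h0 hex hloc
  -- one arc
  have harc : ∀ i, ∀ A : Set unitInterval, (∀ t ∈ A, u i < (t : ℝ) + 1 ∧ (t : ℝ) + 1 < v i) →
      dimH (p.1 '' A) = 7 / 4 * dimH A := by
    intro i A hAi
    obtain ⟨a1, a2, a3, a4, a5, a6⟩ := hi i
    obtain ⟨lam, ρ, hρ, hp2, hpq, hlam, hpt⟩ := hA p (q i) (z i) (u i) (v i) h0 (hG _ a4).1 a5 a2 a6
    have hin : ∀ t ∈ A, (t : ℝ) + 1 ∈ Set.Icc (u i) (v i) := fun t ht =>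
      ⟨(hAi t ht).1.le, (hAi t ht).2.le⟩
    have h1 : p.1 '' A = (fun w => z i + w) '' ((q i).1 '' ((fun t : unitInterval =>
        lam ((t : ℝ) + 1)) '' A)) := by
      ext w
      simp only [Set.mem_image, exists_exists_and_eq_and]
      constructor
      · rintro ⟨t, ht, rfl⟩
        refine ⟨t, ht, ?_⟩
        rw [← hpt _ (hin t ht), per_one, per_self h0]
      · rintro ⟨t, ht, rfl⟩
        refine ⟨t, ht, ?_⟩
        rw [← hpt _ (hin t ht), per_one, per_self h0]
    rw [h1, dimH_trans, (hG _ a4).2, dimH_sim hρ]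
    intro s hs t ht
    have h2 := hlam _ _ (hin s hs) (hin t ht)
    have h3 : dist (lam ((s : ℝ) + 1)) (lam ((t : ℝ) + 1)) =
        |(lam ((s : ℝ) + 1) : ℝ) - lam ((t : ℝ) + 1)| := rfl
    have h4 : dist s t = |(s : ℝ) - t| := rfl
    rw [h3, h4, ← abs_neg, neg_sub, h2, abs_mul, abs_of_pos hρ, ← abs_neg ((s : ℝ) - t), neg_sub]
    congr 2
    ring
  -- all arcs
  have hlt : dimH (p.1 '' (E ∩ {t | (t : ℝ) < 1})) = 7 / 4 * dimH (E ∩ {t | (t : ℝ) < 1}) := by
    have h1 : E ∩ {t | (t : ℝ) < 1} = ⋃ i, (E ∩ {t | (t : ℝ) < 1} ∩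
        {t | u i < (t : ℝ) + 1 ∧ (t : ℝ) + 1 < v i}) := by
      ext t
      simp only [Set.mem_iUnion, Set.mem_inter_iff, Set.mem_ofPred_eq]
      constructor
      · rintro ⟨ht, ht1⟩
        obtain ⟨i, h2, h3⟩ := hcov ((t : ℝ) + 1) (by linarith [t.2.1]) (by linarith) (by
          rw [per_one, per_self h0]
          exact hE t ht)
        exact ⟨i, ⟨ht, ht1⟩, h2, h3⟩
      · rintro ⟨i, h, -⟩
        exact h
    rw [h1, Set.image_iUnion, dimH_iUnion, dimH_iUnion, ENNReal.mul_iSup]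
    exact iSup_congr (fun i => harc i _ (fun t ht => ht.2))
  have hone : E = (E ∩ {t | (t : ℝ) < 1}) ∪ (E ∩ {1}) := by
    ext t
    constructor
    · intro ht
      rcases eq_or_lt_of_le t.2.2 with h1 | h1
      · exact Or.inr ⟨ht, Subtype.ext h1⟩
      · exact Or.inl ⟨ht, h1⟩
    · rintro (h | h)
      · exact h.1
      · exact h.1
  have hsub : dimH (E ∩ {1}) = 0 := dimH_subsingleton (Set.subsingleton_singleton.anti
    Set.inter_subset_right)
  have hsub' : dimH (p.1 '' (E ∩ {1})) = 0 := dimH_subsingleton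
    ((Set.subsingleton_singleton.anti Set.inter_subset_right).image _)
  rw [hone, Set.image_union, dimH_union, dimH_union, hsub, hsub', hlt]
  simp

end Pool.Agent.Y995.LG
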