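import Pool.Agent.Y995.LG.Defs

/-!
Statements (nothing is assumed here) of the steps.
-/

set_option autoImplicit false

namespace Pool.Agent.Y995.LG

open H984P H984N MeasureTheory Filter Topology
open scoped ENNReal

/-! ### Discrete steps -/

/-- D1: a lattice path which crosses the rectangle between the two parts of its boundary is a part
of the exploration path of the rectangle. -/
def S_D1 : Prop := ∀ (D : Dm), D.Ok → ∀ (G : Set H974.Edg) (F' : Finset H974.Edg),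
  (∀ e, e ∈ F' ↔ e ∈ D.edges ∧ e ∈ G) → ∀ (σ : St) (M : ℕ), DCrs D (orb G σ) M →
  ∃ k0 : ℕ, k0 + (M - 1) ≤ D.len F' ∧ ∀ i < M, D.walk F' (k0 + i) = orb G σ (1 + i)

/-- SH: translation of orbits. -/
def S_SH : Prop := ∀ (s : ℤ × ℤ) (F : Set Edge) (σ : St) (j : ℕ),
  orb {e : Edge | sh s e ∈ F} (shS (-s) σ) j = shS (-s) (orb F σ j)

/-- LAW: the law of the exploration path in a rectangle of the unit square. -/
def S_LAW : Prop := ∀ κ : Loc, ∃ n0 : ℕ, ∀ n ≥ n0, (κ.dm n).Ok ∧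
  H342L.lawOf n (κ.Y n) = κ.R.law (1 / (n : ℝ))

/-- GEO: position of lattice states relative to the rectangle. -/
def S_GEO : Prop := ∀ κ : Loc,
  (∀ ρ : ℝ, 0 < ρ → ∃ n0 : ℕ, ∀ n ≥ n0, ∀ σ : St,
    ((κ.l + ρ < (H342L.pt n σ.1).re ∧ (H342L.pt n σ.1).re < κ.r - ρ ∧
      κ.b + ρ < (H342L.pt n σ.1).im ∧ (H342L.pt n σ.1).im < κ.h - ρ) →
        ¬ TH992.T.Out (κ.dm n) (face (shS (-κ.s n) σ))) ∧
    (((H342L.pt n σ.1).re < κ.l - ρ ∨ κ.r + ρ < (H342L.pt n σ.1).re ∨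
      (H342L.pt n σ.1).im < κ.b - ρ ∨ κ.h + ρ < (H342L.pt n σ.1).im) →
        TH992.T.Out (κ.dm n) (face (shS (-κ.s n) σ)))) ∧
  (∀ w ∈ κ.left, ∃ η : ℝ, 0 < η ∧ ∃ n0 : ℕ, ∀ n ≥ n0, ∀ σ : St, dist (H342L.pt n σ.1) w < η →
    (TH992.T.Out (κ.dm n) (face (shS (-κ.s n) σ)) ↔
      ¬ TH992.T.Out (κ.dm n) (face (shS (-κ.s n) (rt σ)))) →
    ae (shS (-κ.s n) σ) ∈ (κ.dm n).wir) ∧
  (∀ w ∈ κ.right, ∃ η : ℝ, 0 < η ∧ ∃ n0 : ℕ, ∀ n ≥ n0, ∀ σ : St, dist (H342L.pt n σ.1) w < η →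
    (TH992.T.Out (κ.dm n) (face (shS (-κ.s n) σ)) ↔
      ¬ TH992.T.Out (κ.dm n) (face (shS (-κ.s n) (rt σ)))) →
    ae (shS (-κ.s n) σ) ∉ (κ.dm n).wir)

/-- PERJ: the periodic extension of a curve near a closed lattice path. -/
def S_PERJ : Prop := ∀ (n : ℕ) (F : Finset Edge) (σ : St) (N : ℕ), 0 < N → orb (↑F) σ N = σ →
  ∀ c : C(unitInterval, ℂ), c 0 = c 1 → ∀ η : ℝ,
  dist (H342T.poly (fun j => H342L.pt n (orb (↑F) σ j).1) N) c < η →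
  ∀ j : ℕ, dist (H342L.pt n (orb (↑F) σ j).1) (per c ((j : ℝ) / N)) < η

/-- EXIT: lattice paths close to a curve which crosses the rectangle. -/
def S_EXIT : Prop := ∀ (κ : Loc) (c : C(unitInterval, ℂ)) (u v : ℝ), c 0 = c 1 → 0 < u →
  Crs κ (per c) u v → GenBox κ (per c) → ∀ ε : ℝ, 0 < ε → ∃ η : ℝ, 0 < η ∧ ∃ n0 : ℕ, ∀ n ≥ n0,
  ∀ (F : Finset Edge) (σ : St) (N : ℕ), 0 < N → orb (↑F) σ N = σ →
  dist (H342T.poly (fun j => H342L.pt n (orb (↑F) σ j).1) N) c < η →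
  ∃ a M : ℕ, DCrs (κ.dm n) (fun j => shS (-κ.s n) (orb (↑F) σ (a + j))) M ∧
    |(a : ℝ) / N - u| ≤ ε ∧ |((a + M : ℕ) : ℝ) / N - v| ≤ ε

/-- SEG: arcs of the limit are arcs of the limits of the exploration paths. -/
def S_SEG : Prop := ∀ (κ : Loc) (p q : X) (u v : ℝ), p.1 0 = p.1 1 → 0 < u →
  Crs κ (per p.1) u v → GenBox κ (per p.1) →
  ∀ (n : ℕ → ℕ) (F : ℕ → Finset Edge) (w : ℕ → ℤ × ℤ) (x : ℕ → X), Tendsto n atTop atTop →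
  (∀ m, IsNat (n m) (F m) (w m) (x m)) → Tendsto x atTop (𝓝 p) →
  Tendsto (fun m => κ.Y (n m) (F m)) atTop (𝓝 q) → SegRel p q κ.z u v

/-! ### Continuous steps -/

/-- SPLIT: every time at which the curve is in the open square is contained in an arc which crosses
a generic rectangle. -/
def S_SPLIT : Prop := ∀ Dx Dy : Set ℝ, (∀ a b : ℝ, 0 ≤ a → a < b → b ≤ 1 → ∃ x ∈ Dx, a < x ∧ x < b) →
  (∀ a b : ℝ, 0 ≤ a → a < b → b ≤ 1 → ∃ x ∈ Dy, a < x ∧ x < b) →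
  ∀ c : ℝ → ℂ, Continuous c → (∀ t, c (t + 1) = c t) →
  (∀ x ∈ Dx, Gen Complex.re x c ∧ NoDbl Complex.re x c) →
  (∀ x ∈ Dy, Gen Complex.im x c ∧ NoDbl Complex.im x c) →
  ∀ t0 : ℝ, c t0 ∈ sq → (∃ t, c t ≠ c t0) →
  ∃ κ : Loc, (κ.l ∈ Dx ∧ κ.r ∈ Dx ∧ κ.α ∈ Dx ∧ κ.β ∈ Dx ∧ κ.b ∈ Dy ∧ κ.h ∈ Dy) ∧
    ∃ u v : ℝ, u < t0 ∧ t0 < v ∧ Crs κ c u v

/-- GENA: almost all lines are not touched at a local extremum. -/
def S_GENA : Prop := ∀ μ : ProbabilityMeasure X, (∀ᵐ p ∂(μ : Measure X), p.1 0 = p.1 1) →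
  ∀ f : ℂ → ℝ, Continuous f → ∀ᵐ x : ℝ, ∀ᵐ p ∂(μ : Measure X), Gen f x (per p.1)

/-- GENB: almost all lines contain no double point. -/
def S_GENB : Prop := ∀ μ : ProbabilityMeasure X, (∀ᵐ p ∂(μ : Measure X), p.1 0 = p.1 1) →
  (∀ᵐ p ∂(μ : Measure X), dimH (dbl p.1) < 1) →
  ∀ f : ℂ → ℝ, LipschitzWith 1 f → ∀ᵐ x : ℝ, ∀ᵐ p ∂(μ : Measure X), NoDbl f x (per p.1)

/-- LOCAL: the gauge inequality for arcs. -/
def S_LOCAL : Prop := ∀ H : Measure ℂ, (∀ (z : ℂ) (E : Set ℂ), H ((fun w => z + w) '' E) = H E) →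
  ∀ (c C : ℝ), 0 < c → 0 < C → ∀ (p q : X) (z : ℂ) (u v : ℝ), p.1 0 = p.1 1 → GI H c C q →
  SegRel p q z u v → u < v → (∃ s, u < s ∧ s < v ∧ per p.1 s ≠ per p.1 u) →
  0 < p.2 ∧ ∀ S : Set ℝ, S ⊆ Set.Icc u v →
    ENNReal.ofReal (c * p.2) * volume S ≤ H (per p.1 '' S) ∧
    H (per p.1 '' S) ≤ ENNReal.ofReal (C * p.2) * volume S

/-- GLOB: the gauge inequality for the whole curve. -/
def S_GLOB : Prop := ∀ H : Measure ℂ, (∀ z : ℂ, H {z} = 0) → ∀ (c C : ℝ), 0 < c → 0 < C →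
  ∀ p : X, p.1 0 = p.1 1 →
  (∀ t0 : ℝ, 1 ≤ t0 → t0 < 2 → per p.1 t0 ∈ sq → ∃ u v : ℝ, 0 ≤ u ∧ u < t0 ∧ t0 < v ∧ v < u + 1 ∧
    0 < p.2 ∧ ∀ S : Set ℝ, S ⊆ Set.Icc u v →
      ENNReal.ofReal (c * p.2) * volume S ≤ H (per p.1 '' S) ∧
      H (per p.1 '' S) ≤ ENNReal.ofReal (C * p.2) * volume S) →
  (∃ t, p.1 t ∈ sq) → volume {t : unitInterval | p.1 t ∉ sq} = 0 →
  H (Set.range p.1 \ sq) = 0 → H (dbl p.1) = 0 → GI H c C p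

/-! ### Probability -/

/-- GL: almost every point of the limit is a limit of configurations for which countably many other
variables converge to points of given sets of full measure. -/
def S_GL : Prop := ∀ (k : ℕ → ℕ) (f : (n : ℕ) → Finset Edge → X) (μ : ProbabilityMeasure X),
  Tendsto (fun i => H342L.lawOf (k i) (f (k i))) atTop (𝓝 μ) →
  ∀ (Y : ℕ → (n : ℕ) → Finset Edge → X) (ν : ℕ → ProbabilityMeasure X),
  (∀ j, Tendsto (fun i => H342L.lawOf (k i) (Y j (k i))) atTop (𝓝 (ν j))) →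
  ∀ G : ℕ → Set X, (∀ j, ∀ᵐ y ∂(ν j : Measure X), y ∈ G j) →
  ∀ᵐ x ∂(μ : Measure X), ∃ (φ : ℕ → ℕ) (F : ℕ → Finset Edge) (y : ℕ → X), StrictMono φ ∧
    (∀ m, F m ⊆ H342P.Plain.edges (k (φ m))) ∧
    Tendsto (fun m => f (k (φ m)) (F m)) atTop (𝓝 x) ∧
    ∀ j, y j ∈ G j ∧ Tendsto (fun m => Y j (k (φ m)) (F m)) atTop (𝓝 (y j))

/-- DIAG: diagonal subsequences. -/
def S_DIAG : Prop := ∀ (Z : Type) [TopologicalSpace Z] (a : ℕ → ℕ → Z),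
  (∀ (j : ℕ) (φ : ℕ → ℕ), StrictMono φ →
    ∃ ψ : ℕ → ℕ, StrictMono ψ ∧ ∃ y, Tendsto (fun i => a j (φ (ψ i))) atTop (𝓝 y)) →
  ∃ φ : ℕ → ℕ, StrictMono φ ∧ ∀ j, ∃ y, Tendsto (fun i => a j (φ i)) atTop (𝓝 y)

/-- The number of steps of the closed lattice path near the boundary of the box. -/
noncomputable def bdN (n : ℕ) (ρ : ℤ) (F : Finset Edge) (σ : St) (N : ℕ) : ℕ :=
  ((Finset.range N).filter (fun j => H342P.bdist n (orb (↑F) σ j).1 < ρ)).card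

/-- CNT: the number of steps of the closed lattice path, in terms of the number of boundary
sides. -/
def S_CNT : Prop := ∀ (n : ℕ) (F : Finset Edge) (v : ℤ × ℤ) (σ : St) (N : ℕ), 0 < n →
  F ⊆ H342P.Plain.edges n → v ∈ H342P.Plain.box n → 0 < N → σ.1 ∈ H342P.Plain.cluster F v →
  H342P.Plain.Outer F v (face σ) → orb (↑F) σ N = σ →
  (∀ j, 0 < j → j < N → orb (↑F) σ j ≠ σ) →
  N ≤ 4 * H342P.Plain.perimeter F v + 4 ∧
  ∀ ρ : ℤ, bdN n ρ F σ N ≤ 4 * H342L.perL n (ρ + 1) (↑F) v + 4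

/-- UPN: upper bound of the number of steps. -/
def S_UPN : Prop := ∀ ε : ℝ, 0 < ε → ∃ (K : ℝ) (n0 : ℕ), 0 < K ∧ ∀ n ≥ n0,
  H342P.Plain.prob n (fun F => ∃ (v : ℤ × ℤ) (p : X), H342P.Plain.Largest n F v ∧
    IsNat n F v p ∧ K ≤ p.2) ≤ ε

/-- BDN: there are few steps near the boundary of the box. -/
def S_BDN : Prop := ∀ ε θ : ℝ, 0 < ε → 0 < θ → ∃ (η : ℝ) (n0 : ℕ), 0 < η ∧ ∀ n ≥ n0,
  H342P.Plain.prob n (fun F => ∃ (v : ℤ × ℤ) (σ : St) (N : ℕ), H342P.Plain.Largest n F v ∧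
    0 < N ∧ σ.1 ∈ H342P.Plain.cluster F v ∧ H342P.Plain.Outer F v (face σ) ∧
    orb (↑F) σ N = σ ∧ (∀ j, 0 < j → j < N → orb (↑F) σ j ≠ σ) ∧
    θ * (n : ℝ) ^ (7/4 : ℝ) ≤ (bdN n ⌈η * n⌉ F σ N : ℝ)) ≤ ε

/-- The choice of a largest cluster and the natural parametrisations of its outer boundary. -/
structure Sel (sel : (n : ℕ) → Finset Edge → ℤ × ℤ) (f : (n : ℕ) → Finset Edge → X) : Prop where
  big : ∀ n F, 0 < n → F ⊆ H342P.Plain.edges n → H342P.Plain.Largest n F (sel n F)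
  nat : ∀ n F, 0 < n → F ⊆ H342P.Plain.edges n → IsNat n F (sel n F) (f n F)

/-- BDRY: the limits spend no time on the boundary of the square. -/
def S_BDRY : Prop := ∀ (sel : (n : ℕ) → Finset Edge → ℤ × ℤ) (f : (n : ℕ) → Finset Edge → X),
  Sel sel f → ∀ k : ℕ → ℕ, Tendsto k atTop atTop → ∀ μ : ProbabilityMeasure X,
  Tendsto (fun i => H342L.lawOf (k i) (f (k i))) atTop (𝓝 μ) →
  ∀ᵐ p ∂(μ : Measure X), (∀ t, p.1 t ∈ closure sq) ∧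
    p.2 * (volume {t : unitInterval | p.1 t ∉ sq}).toReal = 0

/-- MOD: subpaths of large diameter have many steps. -/
def S_MOD : Prop := ∀ w ε : ℝ, 0 < w → 0 < ε → ∃ (θ : ℝ) (n0 : ℕ), 0 < θ ∧ ∀ n ≥ n0,
  H342P.Plain.prob n (fun F => ∃ (v : ℤ × ℤ) (σ : St) (t : ℕ), H342P.Plain.Largest n F v ∧
    σ.1 ∈ H342P.Plain.cluster F v ∧ H342P.Plain.Outer F v (face σ) ∧
    w * n ≤ (sd σ.1 (orb (↑F) σ t).1 : ℝ) ∧ (t : ℝ) < θ * (n : ℝ) ^ (7/4 : ℝ)) ≤ ε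

/-- TIGHT: relative compactness. -/
def S_TIGHT : Prop := ∀ (sel : (n : ℕ) → Finset Edge → ℤ × ℤ) (f : (n : ℕ) → Finset Edge → X),
  Sel sel f → ∀ k : ℕ → ℕ, Tendsto k atTop atTop → ∃ (φ : ℕ → ℕ) (μ : ProbabilityMeasure X),
  StrictMono φ ∧ Tendsto (fun i => H342L.lawOf (k (φ i)) (f (k (φ i)))) atTop (𝓝 μ)

end Pool.Agent.Y995.LG
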