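import Pool.Agent.Y995.LG.Stm
import Pool.Agent.Y995.HG.Zero

/-!
Assembly.
-/

set_option autoImplicit false

namespace Pool.Agent.Y995.LG

open H984P H984N MeasureTheory Filter Topology Pool.Agent.Y995.HG
open scoped ENNReal

/-- Properties of the limits modulo reparametrisation. -/
def S_CUR : Prop := ∀ (sel : (n : ℕ) → Finset Edge → ℤ × ℤ) (f : (n : ℕ) → Finset Edge → X),
  Sel sel f → ∀ k : ℕ → ℕ, Tendsto k atTop atTop → ∀ μ : ProbabilityMeasure X,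
  Tendsto (fun i => H342L.lawOf (k i) (f (k i))) atTop (𝓝 μ) →
  ∀ᵐ p ∂(μ : Measure X), p.1 0 = p.1 1 ∧ dimH (Set.range p.1) = 7 / 4 ∧ dimH (dbl p.1) = 3 / 4

theorem H_trans (z : ℂ) (E : Set ℂ) :
    Measure.mkMetric gm ((fun w => z + w) '' E) = Measure.mkMetric gm E := by
  have h : (fun w => z + w) '' E = (IsometryEquiv.addLeft z : ℂ ≃ᵢ ℂ) '' E := rfl
  have h2 := MeasureTheory.OuterMeasure.isometryEquiv_map_mkMetric gm (IsometryEquiv.addLeft z : ℂ ≃ᵢ ℂ)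
  have h3 := congrArg (fun m : OuterMeasure ℂ => m ((IsometryEquiv.addLeft z : ℂ ≃ᵢ ℂ) '' E)) h2
  simp only [OuterMeasure.map_apply] at h3
  rw [Set.preimage_image_eq _ (IsometryEquiv.addLeft z : ℂ ≃ᵢ ℂ).injective] at h3
  rw [h]
  have h4 : ∀ A : Set ℂ, Measure.mkMetric gm A = OuterMeasure.mkMetric gm A := by
    intro A
    rw [← MeasureTheory.Measure.coe_toOuterMeasure, MeasureTheory.Measure.mkMetric_toOuterMeasure]
  rw [h4, h4, h3]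

/-- A countable dense set of good lines. -/
theorem lines {P : ℝ → Prop} (h : ∀ᵐ x : ℝ, P x) : ∃ D : Set ℝ, D.Countable ∧ (∀ x ∈ D, P x) ∧
    ∀ a b : ℝ, 0 ≤ a → a < b → b ≤ 1 → ∃ x ∈ D, a < x ∧ x < b := by
  have h1 : ∀ q : {q : ℚ × ℚ // q.1 < q.2}, ∃ x : ℝ, P x ∧ (q.1.1 : ℝ) < x ∧ x < (q.1.2 : ℝ) := by
    intro q
    have hq : (q.1.1 : ℝ) < (q.1.2 : ℝ) := by exact_mod_cast q.2
    by_contra hcon
    push Not at hcon
    have h2 : Set.Ioo (q.1.1 : ℝ) (q.1.2 : ℝ) ⊆ {x | ¬ P x} := by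
      intro x hx hP
      exact absurd hx.2 (not_lt.mpr (hcon x hP hx.1))
    have h3 : volume (Set.Ioo (q.1.1 : ℝ) (q.1.2 : ℝ)) = 0 := measure_mono_null h2 h
    rw [Real.volume_Ioo, ENNReal.ofReal_eq_zero] at h3
    linarith
  choose x hx1 hx2 hx3 using h1
  refine ⟨Set.range x, Set.countable_range x, ?_, ?_⟩
  · rintro _ ⟨q, rfl⟩
    exact hx1 q
  · intro a b _ hab _
    obtain ⟨q1, h1, h2⟩ := exists_rat_btwn hab
    obtain ⟨q2, h3, h4⟩ := exists_rat_btwn h2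
    have h5 : q1 < q2 := by exact_mod_cast h3
    have e1 := hx2 ⟨(q1, q2), h5⟩
    have e2 := hx3 ⟨(q1, q2), h5⟩
    exact ⟨x ⟨(q1, q2), h5⟩, ⟨_, rfl⟩, lt_trans h1 e1, lt_trans e2 h4⟩

/-- A fixed rectangle. -/
noncomputable def κ0 : Loc where
  l := 1/4
  r := 3/4
  b := 1/4
  h := 3/4
  α := 1/2
  β := 1/2
  l0 := by norm_num
  r1 := by norm_num
  b0 := by norm_num
  bh := by norm_num
  h1 := by norm_num
  lα := by norm_num
  αr := by norm_num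
  lβ := by norm_num
  βr := by norm_num

theorem Loc.ext6 {κ κ' : Loc} (h : (κ.l, κ.r, κ.b, κ.h, κ.α, κ.β) =
    (κ'.l, κ'.r, κ'.b, κ'.h, κ'.α, κ'.β)) : κ = κ' := by
  obtain ⟨l, r, b, h, α, β, _, _, _, _, _, _, _, _, _⟩ := κ
  obtain ⟨l', r', b', h', α', β', _, _, _, _, _, _, _, _, _⟩ := κ'
  simp only [Prod.mk.injEq] at h
  obtain ⟨rfl, rfl, rfl, rfl, rfl, rfl⟩ := h
  rfl

/-- Enumeration of the generic rectangles. -/
theorem enum {Dx Dy : Set ℝ} (hx : Dx.Countable) (hy : Dy.Countable) : ∃ K : ℕ → Loc,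
    ∀ κ : Loc, (κ.l ∈ Dx ∧ κ.r ∈ Dx ∧ κ.α ∈ Dx ∧ κ.β ∈ Dx ∧ κ.b ∈ Dy ∧ κ.h ∈ Dy) →
      ∃ j, K j = κ := by
  set A : Set Loc := insert κ0 {κ : Loc | κ.l ∈ Dx ∧ κ.r ∈ Dx ∧ κ.α ∈ Dx ∧ κ.β ∈ Dx ∧ κ.b ∈ Dy ∧
    κ.h ∈ Dy} with hA
  have h1 : A.Countable := by
    refine Set.Countable.insert _ ?_
    have h2 : (Dx ×ˢ Dx ×ˢ Dy ×ˢ Dy ×ˢ Dx ×ˢ Dx).Countable :=
      hx.prod (hx.prod (hy.prod (hy.prod (hx.prod hx))))
    refine Set.MapsTo.countable_of_injOn (f := fun κ : Loc => (κ.l, κ.r, κ.b, κ.h, κ.α, κ.β))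
      ?_ ?_ h2
    · rintro κ ⟨a1, a2, a3, a4, a5, a6⟩
      exact ⟨a1, a2, a5, a6, a3, a4⟩
    · intro κ _ κ' _ h
      exact Loc.ext6 h
  obtain ⟨K, hK⟩ := h1.exists_eq_range ⟨κ0, Set.mem_insert _ _⟩
  refine ⟨K, fun κ hκ => ?_⟩
  have h2 : κ ∈ A := Set.mem_insert_of_mem _ hκ
  rw [hK] at h2
  exact h2

theorem Crs.ne {κ : Loc} {c : ℝ → ℂ} {u v : ℝ} (h : Crs κ c u v) :
    ∃ s, u < s ∧ s < v ∧ c s ≠ c u := by
  obtain ⟨h1, h2, h3, h4⟩ := h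
  refine ⟨(u + v) / 2, by linarith, by linarith, fun h => ?_⟩
  have h5 := h3 ((u + v) / 2) (by linarith) (by linarith)
  rw [h] at h5
  obtain ⟨g1, g2, g3, g4⟩ := h5
  have h6 : c u ∈ κ.left ∨ c u ∈ κ.right := by
    rcases h4 with h | h
    · exact Or.inl h.1
    · exact Or.inr h.1
  rcases h6 with (⟨a, _⟩ | ⟨a, _⟩ | ⟨a, _⟩) | (⟨a, _⟩ | ⟨a, _⟩ | ⟨a, _⟩) <;> linarith

theorem per_cont {c : C(unitInterval, ℂ)} (h : c 0 = c 1) : Continuous (per c) := by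
  have h1 : per c = (Set.IccExtend (zero_le_one : (0:ℝ) ≤ 1) c) ∘ (Int.fract : ℝ → ℝ) := by
    funext t
    unfold per
    rw [Function.comp_apply,
      Set.IccExtend_of_mem _ _ ⟨Int.fract_nonneg t, (Int.fract_lt_one t).le⟩]
  have h2 : Continuous (Set.IccExtend (zero_le_one : (0:ℝ) ≤ 1) c) := c.continuous.Icc_extend'
  rw [h1]
  refine ContinuousOn.comp_fract'' (f := Set.IccExtend (zero_le_one : (0:ℝ) ≤ 1) c)
    h2.continuousOn ?_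
  have e1 : Set.IccExtend (zero_le_one : (0:ℝ) ≤ 1) c 0 = c 0 := by
    rw [Set.IccExtend_of_mem _ _ (by simp : (0:ℝ) ∈ Set.Icc (0:ℝ) 1)]
    rfl
  have e2 : Set.IccExtend (zero_le_one : (0:ℝ) ≤ 1) c 1 = c 1 := by
    rw [Set.IccExtend_of_mem _ _ (by simp : (1:ℝ) ∈ Set.Icc (0:ℝ) 1)]
    rfl
  rw [e1, e2]
  exact h

theorem per_one (c : C(unitInterval, ℂ)) (t : ℝ) : per c (t + 1) = per c t := by
  unfold per
  simp only [Int.fract_add_one]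

theorem per_self {c : C(unitInterval, ℂ)} (h : c 0 = c 1) (t : unitInterval) : per c t = c t := by
  unfold per
  rcases eq_or_lt_of_le t.2.2 with h1 | h1
  · have h2 : t = 1 := Subtype.ext h1
    subst h2
    rw [← h]
    congr 1
    apply Subtype.ext
    simp
  · congr 1
    apply Subtype.ext
    exact Int.fract_eq_self.mpr ⟨t.2.1, h1⟩

end Pool.Agent.Y995.LG
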