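import Pool.Agent.Y995.LG.Stm2
import Pool.Agent.Y995.LG.Fin

/-!
Affine parametrisation of arcs, countable covers by arcs.
-/

set_option autoImplicit false

namespace Pool.Agent.Y995.LG

open H984P H984N MeasureTheory Filter Topology
open scoped ENNReal

theorem arc : S_ARC := by
  intro p q z u v h0 hq hseg huv hne
  obtain ⟨u', v', hu', huv', hv', hT, hpt⟩ := hseg
  have hvu : 0 < v - u := by linarith
  have hlt : u' < v' := by
    rcases eq_or_lt_of_le huv' with h | h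
    · exfalso
      obtain ⟨s, h1, h2, h3⟩ := hne
      apply h3
      have e1 := hpt ((s - u) / (v - u)) (div_nonneg (by linarith) hvu.le)
        ((div_le_one hvu).2 (by linarith))
      have e2 := hpt 0 le_rfl zero_le_one
      rw [div_mul_cancel₀ _ hvu.ne', add_sub_cancel] at e1
      rw [zero_mul, zero_mul, add_zero, add_zero] at e2
      rw [e1, e2, ← h]
      simp
    · exact h
  obtain ⟨ρ, hρ⟩ : ∃ ρ : ℝ, ρ = (v' - u') / (v - u) := ⟨_, rfl⟩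
  have hρ0 : 0 < ρ := by rw [hρ]; exact div_pos (by linarith) hvu
  have hρm : ρ * (v - u) = v' - u' := by rw [hρ, div_mul_cancel₀ _ hvu.ne']
  have hp2 : p.2 = q.2 * ρ := by
    have h1 : p.2 * (v - u) = q.2 * ρ * (v - u) := by rw [hT, mul_assoc, hρm]
    exact mul_right_cancel₀ hvu.ne' h1
  have hin : ∀ t ∈ Set.Icc u v, u' + ρ * (t - u) ∈ Set.Icc (0:ℝ) 1 := by
    intro t ht
    constructor
    · have := mul_nonneg hρ0.le (show 0 ≤ t - u by linarith [ht.1])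
      linarith
    · have := mul_le_mul_of_nonneg_left (show t - u ≤ v - u by linarith [ht.2]) hρ0.le
      linarith
  refine ⟨fun t => Set.projIcc 0 1 zero_le_one (u' + ρ * (t - u)), ρ, hρ0, ?_, hp2, ?_, ?_⟩
  · rw [hp2]
    positivity
  · intro s t hs ht
    beta_reduce
    rw [Set.projIcc_of_mem _ (hin s hs), Set.projIcc_of_mem _ (hin t ht)]
    simp only
    ring
  · intro t ht
    have e1 := hpt ((t - u) / (v - u)) (div_nonneg (by linarith [ht.1]) hvu.le)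
      ((div_le_one hvu).2 (by linarith [ht.2]))
    rw [div_mul_cancel₀ _ hvu.ne', add_sub_cancel] at e1
    rw [e1]
    have e2 : (t - u) / (v - u) * (v' - u') = ρ * (t - u) := by
      rw [hρ]
      ring
    rw [e2]
    rfl

/-- There is a time in `[1, 2)` at which the curve is in the square. -/
theorem ex_time {p : X} (h0 : p.1 0 = p.1 1) (h : ∃ t, p.1 t ∈ sq) :
    ∃ t : ℝ, (1 ≤ t ∧ t < 2) ∧ per p.1 t ∈ sq := by
  obtain ⟨t, ht⟩ := h
  rcases eq_or_lt_of_le t.2.2 with h1 | h1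
  · have h2 : t = 1 := Subtype.ext h1
    subst h2
    rw [← h0] at ht
    refine ⟨1, ⟨le_rfl, by norm_num⟩, ?_⟩
    have e1 := per_one p.1 0
    rw [zero_add] at e1
    rw [e1]
    have e2 := per_self h0 0
    rw [Set.Icc.coe_zero] at e2
    rwa [e2]
  · refine ⟨(t : ℝ) + 1, ⟨by linarith [t.2.1], by linarith⟩, ?_⟩
    rw [per_one, per_self h0]
    exact ht

theorem cov : S_COV := by
  intro G p h0 hex hloc
  obtain ⟨t1, ht1, ht1'⟩ := ex_time h0 hex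
  have hch : ∀ o : {t : ℝ // (1 ≤ t ∧ t < 2) ∧ per p.1 t ∈ sq}, ∃ x : ℝ × ℝ × ℂ × X,
      0 < x.1 ∧ x.1 < o.1 ∧ o.1 < x.2.1 ∧ x.2.1 < x.1 + 1 ∧ x.2.2.2 ∈ G ∧
      SegRel p x.2.2.2 x.2.2.1 x.1 x.2.1 ∧ ∃ s, x.1 < s ∧ s < x.2.1 ∧ per p.1 s ≠ per p.1 x.1 := by
    rintro ⟨t, ⟨h1, h2⟩, h3⟩
    obtain ⟨u, v, z, q, a1, a2, a3, a4, a5, a6, a7⟩ := hloc t h1 h2 h3
    exact ⟨(u, v, z, q), a1, a2, a3, a4, a5, a6, a7⟩
  choose x hx using hch
  obtain ⟨T, hT, hTU⟩ := TopologicalSpace.isOpen_iUnion_countable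
    (fun o => Set.Ioo (x o).1 (x o).2.1) (fun o => isOpen_Ioo)
  have hmem : ∀ t : ℝ, 1 ≤ t → t < 2 → per p.1 t ∈ sq → ∃ o ∈ T, (x o).1 < t ∧ t < (x o).2.1 := by
    intro t h1 h2 h3
    have h4 : t ∈ ⋃ o, Set.Ioo (x o).1 (x o).2.1 :=
      Set.mem_iUnion.2 ⟨⟨t, ⟨h1, h2⟩, h3⟩, (hx ⟨t, ⟨h1, h2⟩, h3⟩).2.1, (hx ⟨t, ⟨h1, h2⟩, h3⟩).2.2.1⟩
    rw [← hTU, Set.mem_iUnion₂] at h4
    obtain ⟨o, ho, h5⟩ := h4
    exact ⟨o, ho, h5.1, h5.2⟩
  have hTne : T.Nonempty := by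
    obtain ⟨o, ho, -⟩ := hmem t1 ht1.1 ht1.2 ht1'
    exact ⟨o, ho⟩
  obtain ⟨f, hf⟩ := hT.exists_eq_range hTne
  refine ⟨fun i => (x (f i)).1, fun i => (x (f i)).2.1, fun i => (x (f i)).2.2.1,
    fun i => (x (f i)).2.2.2, fun i => ?_, fun t h1 h2 h3 => ?_⟩
  · obtain ⟨a1, a2, a3, a4, a5, a6, a7⟩ := hx (f i)
    exact ⟨a1, a2.trans a3, a4, a5, a6, a7⟩
  · obtain ⟨o, ho, h4, h5⟩ := hmem t h1 h2 h3
    rw [hf] at ho
    obtain ⟨i, rfl⟩ := ho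
    exact ⟨i, h4, h5⟩

end Pool.Agent.Y995.LG
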