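import Pool.Agent.Y995.LG.Fin
import Pool.Agent.Results.MP_6bd702_pr.LimitCurves
import Pool.Agent.Results.MP_6bd702_pr.DoublePoints

/-!
Properties of the limits modulo reparametrisation.
-/

set_option autoImplicit false

namespace Pool.Agent.Y995.LG

open H984P H984N MeasureTheory Filter Topology

/-- The curve modulo reparametrisation. -/
def toC (p : X) : H342L.Curve := ⟨p.1⟩

theorem toC_cont : Continuous toC := by
  have h : LipschitzWith 1 toC := by
    refine LipschitzWith.of_dist_le_mul (fun p q => ?_)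
    rw [NNReal.coe_one, one_mul, H342L.Curve.dist_def]
    refine (H342L.cdist_le _ _ (OrderIso.refl _)).trans ?_
    have h1 : H342L.rep (toC q).path (OrderIso.refl _) = q.1 := by
      ext t
      rfl
    rw [h1]
    exact le_max_left _ _
  exact h.continuous

theorem IsNat.trace {n : ℕ} {F : Finset Edge} {v : ℤ × ℤ} {p : X} (h : IsNat n F v p) :
    H342T.IsTrace n F v (toC p) := by
  obtain ⟨σ, N, h1, h2, h3, h4, h5, rfl⟩ := h
  exact ⟨σ, N, h1, h2, h3, h4, h5, rfl⟩

theorem cur : S_CUR := by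
  intro sel f hsel k hk μ hμ
  obtain ⟨R1, R2⟩ := Pool.Agent.Results.MP_6bd702_pr.LimitCurves.result
  have hγ : ∀ n F, 0 < n → F ⊆ H342P.Plain.edges n →
      H342T.IsTrace n F (sel n F) (toC (f n F)) := fun n F hn hF => (hsel.nat n F hn hF).trace
  have hμ' : Tendsto (fun i => H342L.lawOf (k i) (fun F => toC (f (k i) F))) atTop
      (𝓝 (μ.map toC_cont.aemeasurable)) := by
    have h1 := ProbabilityMeasure.tendsto_map_of_tendsto_of_continuous _ _ hμ toC_cont
    refine h1.congr (fun i => ?_)
    exact H342L.lawOf_map (k i) (f (k i)) toC_cont.measurable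
  have h2 := (R2 sel hsel.big).2 (fun n F => toC (f n F)) (fun n F hn hF =>
    (R1 n F (sel n F) hn hF (hsel.big n F hn hF).1).2 _ (hγ n F hn hF)) k _ hk hμ'
  have h3 := Pool.Agent.Results.MP_6bd702_pr.DoublePoints.result sel hsel.big
    (fun n F => toC (f n F)) hγ k hk _ hμ'
  have h4 := ae_of_ae_map toC_cont.aemeasurable h2
  have h5 := ae_of_ae_map toC_cont.aemeasurable h3
  filter_upwards [h4, h5] with p q1 q2
  exact ⟨q1.1, q1.2.1, q2.1⟩

/-- The double points in the open square. -/
theorem cur2 (sel : (n : ℕ) → Finset Edge → ℤ × ℤ) (f : (n : ℕ) → Finset Edge → X)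
    (hsel : Sel sel f) (k : ℕ → ℕ) (hk : Tendsto k atTop atTop) (μ : ProbabilityMeasure X)
    (hμ : Tendsto (fun i => H342L.lawOf (k i) (f (k i))) atTop (𝓝 μ)) :
    ∀ᵐ p ∂(μ : Measure X), dimH (dbl p.1 ∩ sq) = 3 / 4 := by
  have hγ : ∀ n F, 0 < n → F ⊆ H342P.Plain.edges n →
      H342T.IsTrace n F (sel n F) (toC (f n F)) := fun n F hn hF => (hsel.nat n F hn hF).trace
  have hμ' : Tendsto (fun i => H342L.lawOf (k i) (fun F => toC (f (k i) F))) atTop
      (𝓝 (μ.map toC_cont.aemeasurable)) := by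
    have h1 := ProbabilityMeasure.tendsto_map_of_tendsto_of_continuous _ _ hμ toC_cont
    refine h1.congr (fun i => ?_)
    exact H342L.lawOf_map (k i) (f (k i)) toC_cont.measurable
  have h3 := Pool.Agent.Results.MP_6bd702_pr.DoublePoints.result sel hsel.big
    (fun n F => toC (f n F)) hγ k hk _ hμ'
  filter_upwards [ae_of_ae_map toC_cont.aemeasurable h3] with p q2
  exact q2.2.1

end Pool.Agent.Y995.LG
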