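import Pool.Agent.Y995.LG.Stm
import Pool.Agent.TH992.T.Low4

/-!
Crossings of a rectangle are parts of its exploration path.
-/

set_option autoImplicit false

namespace Pool.Agent.Y995.LG

open H974 Finset H342P H984P H984N TH992.T

theorem inner_iff {D : Dm} {f : Vtx} : ¬ Out D f ↔ ((D.l ≤ f.1 ∧ f.1 < D.r) ∧ 0 ≤ f.2 ∧ f.2 < D.h) := by
  unfold Out
  exact not_not

/-- The examined edge at a state with an inner face is an edge of the rectangle. -/
theorem ae_edge {D : Dm} {σ : St} (h : ¬ Out D (face σ)) : ae σ ∈ D.edges := by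
  rw [inner_iff] at h
  obtain ⟨⟨x, y⟩, q⟩ := σ
  unfold Dm.edges
  cases q
  · rw [face_ne] at h
    rw [ae_ne, mem_RE_true]
    simp only at h
    omega
  · rw [face_nw] at h
    rw [ae_nw, mem_RE_false]
    simp only at h
    omega
  · rw [face_sw] at h
    rw [ae_sw, mem_RE_true]
    simp only at h
    omega
  · rw [face_se] at h
    rw [ae_se, mem_RE_false]
    simp only at h
    omega

/-- The same for the face of the next corner. -/
theorem ae_edge' {D : Dm} {σ : St} (h : ¬ Out D (face (rt σ))) : ae σ ∈ D.edges := by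
  rw [inner_iff] at h
  obtain ⟨⟨x, y⟩, q⟩ := σ
  unfold Dm.edges
  cases q
  · rw [rt_ne, face_se] at h
    rw [ae_ne, mem_RE_true]
    simp only at h
    omega
  · rw [rt_nw, face_ne] at h
    rw [ae_nw, mem_RE_false]
    simp only at h
    omega
  · rw [rt_sw, face_nw] at h
    rw [ae_sw, mem_RE_true]
    simp only at h
    omega
  · rw [rt_se, face_sw] at h
    rw [ae_se, mem_RE_false]
    simp only at h
    omega

/-- Wired edges separate an inner face from an outer face. -/
theorem wir_out {D : Dm} {σ : St} (h : ae σ ∈ D.wir) :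
    Out D (face σ) ∨ Out D (face (rt σ)) := by
  obtain ⟨⟨x, y⟩, q⟩ := σ
  unfold Out
  cases q
  · rw [ae_ne] at h
    rw [rt_ne, face_ne, face_se]
    unfold Dm.wir at h
    simp only [Set.mem_ofPred_eq, Bool.true_eq_false, false_and, false_or, true_and] at h
    simp only
    omega
  · rw [ae_nw] at h
    rw [rt_nw, face_nw, face_ne]
    unfold Dm.wir at h
    simp only [Set.mem_ofPred_eq, Bool.false_eq_true, false_and, false_or, or_false, true_and] at h
    simp only
    omega
  · rw [ae_sw] at h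
    rw [rt_sw, face_sw, face_nw]
    unfold Dm.wir at h
    simp only [Set.mem_ofPred_eq, Bool.true_eq_false, false_and, false_or, true_and] at h
    simp only
    omega
  · rw [ae_se] at h
    rw [rt_se, face_se, face_sw]
    unfold Dm.wir at h
    simp only [Set.mem_ofPred_eq, Bool.false_eq_true, false_and, false_or, or_false, true_and] at h
    simp only
    omega

/-- The ends of wired edges are in the cluster of the wired arc. -/
theorem wir_clu {D : Dm} (hD : D.Ok) (F : Finset Edg) {e : Edg} (he : e ∈ D.wir) :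
    src e ∈ D.clu F ∧ tgt e ∈ D.clu F := by
  obtain ⟨h1, h2, h3, h4, h5⟩ := hD
  have key : src e ∈ D.clu F := by
    obtain ⟨x, y, b⟩ := e
    unfold Dm.wir at he
    simp only [Set.mem_ofPred_eq] at he
    rw [src_mk]
    have e1 := clu_bottom (D := D) F (-D.l).toNat (by omega)
    have e2 := clu_left (D := D) F D.h.toNat (by omega)
    have f1 : -(((-D.l).toNat : ℕ) : ℤ) = D.l := by omega
    have f2 : ((D.h.toNat : ℕ) : ℤ) = D.h := by omega
    rw [f1] at e1
    rw [f2] at e2
    rcases he with ⟨_, g2, g3, g4⟩ | ⟨_, g2, g3, g4⟩ | ⟨_, g2, g3, g4⟩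
    · have e3 := clu_top (D := D) F (x - D.l).toNat (by omega)
      have f3 : D.l + (((x - D.l).toNat : ℕ) : ℤ) = x := by omega
      rw [f3] at e3
      rw [g2]
      exact (e1.trans e2).trans e3
    · have e3 := clu_left (D := D) F y.toNat (by omega)
      have f3 : ((y.toNat : ℕ) : ℤ) = y := by omega
      rw [f3] at e3
      rw [g2]
      exact e1.trans e3
    · have e3 := clu_bottom (D := D) F (-x).toNat (by omega)
      have f3 : -(((-x).toNat : ℕ) : ℤ) = x := by omega
      rw [f3] at e3
      rw [g2]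
      exact e3
  refine ⟨key, ?_⟩
  have hr : Reach (D.cfg F) (0, 0) (src e) := key
  exact hr.trans (Adj.reach ⟨e, Or.inr he, Or.inl ⟨rfl, rfl⟩⟩)

/-- A closed boundary edge which is not wired: the outer face is in the dual cluster. -/
theorem outer_of {D : Dm} (hD : D.Ok) {σ : St} (he : ae σ ∈ D.edges) (hw : ae σ ∉ D.wir) :
    (Out D (face σ) → face σ ∈ D.outer) ∧ (Out D (face (rt σ)) → face (rt σ) ∈ D.outer) := by
  obtain ⟨h1, h2, h3, h4, h5⟩ := hD
  obtain ⟨⟨x, y⟩, q⟩ := σ
  unfold Out Dm.outer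
  unfold Dm.edges at he
  unfold Dm.wir at hw
  cases q
  · rw [ae_ne] at he hw
    rw [mem_RE_true] at he
    rw [rt_ne, face_ne, face_se]
    simp only [Set.mem_ofPred_eq, Bool.true_eq_false, false_and, false_or, true_and] at hw ⊢
    omega
  · rw [ae_nw] at he hw
    rw [mem_RE_false] at he
    rw [rt_nw, face_nw, face_ne]
    simp only [Set.mem_ofPred_eq, Bool.false_eq_true, false_and, false_or, or_false,
      true_and] at hw ⊢
    omega
  · rw [ae_sw] at he hw
    rw [mem_RE_true] at he
    rw [rt_sw, face_sw, face_nw]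
    simp only [Set.mem_ofPred_eq, Bool.true_eq_false, false_and, false_or, true_and] at hw ⊢
    omega
  · rw [ae_se] at he hw
    rw [mem_RE_false] at he
    rw [rt_se, face_se, face_sw]
    simp only [Set.mem_ofPred_eq, Bool.false_eq_true, false_and, false_or, or_false,
      true_and] at hw ⊢
    omega

/-- A step which changes the face is a turn. -/
theorem step_rt {G : Set Edg} {σ : St} (h : face (nxt G σ) ≠ face σ) :
    ae σ ∉ G ∧ nxt G σ = rt σ := by
  by_cases h1 : ae σ ∈ G
  · exfalso
    rw [nxt_open h1, p2_face_mv] at h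
    exact h rfl
  · exact ⟨h1, nxt_closed h1⟩

theorem d1 : S_D1 := by
  intro D hD G F' hF' σ M ⟨hM, hout0, hin, houtM, hwir⟩
  have hFe : F' ⊆ D.edges := fun e he => ((hF' e).1 he).1
  set τ : ℕ → St := orb G σ with hτ
  have hτs : ∀ j, τ (j + 1) = nxt G (τ j) := fun j => orb_succ _ _ _
  -- the first and the last step
  have hs0 : ae (τ 0) ∉ G ∧ τ 1 = rt (τ 0) := by
    have h1 : face (nxt G (τ 0)) ≠ face (τ 0) := by
      intro h
      rw [← hτs] at h
      have := hin 1 le_rfl hM
      rw [zero_add] at h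
      rw [h] at this
      exact this hout0
    have h2 := step_rt h1
    exact ⟨h2.1, by rw [← h2.2, ← hτs]⟩
  have hsM : ae (τ M) ∉ G ∧ τ (M + 1) = rt (τ M) := by
    have h1 : face (nxt G (τ M)) ≠ face (τ M) := by
      intro h
      rw [← hτs] at h
      have := hin M hM le_rfl
      rw [← h] at this
      exact this houtM
    have h2 := step_rt h1
    exact ⟨h2.1, by rw [← h2.2, ← hτs]⟩
  -- the steps inside
  have hstep : ∀ j, 1 ≤ j → j < M → (ae (τ j) ∈ D.cfg F' ↔ ae (τ j) ∈ G) := by
    intro j h1 h2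
    have he := ae_edge (hin j h1 h2.le)
    constructor
    · rintro (h | h)
      · exact ((hF' _).1 (Finset.mem_coe.1 h)).2
      · by_contra hG
        rcases wir_out h with h3 | h3
        · exact hin j h1 h2.le h3
        · rw [← nxt_closed hG, ← hτs] at h3
          exact hin (j + 1) (by omega) h2 h3
    · intro h
      exact Or.inl (Finset.mem_coe.2 ((hF' _).2 ⟨he, h⟩))
  have hnxt : ∀ j, 1 ≤ j → j < M → nxt (D.cfg F') (τ j) = τ (j + 1) := by
    intro j h1 h2
    rw [hτs]
    by_cases h : ae (τ j) ∈ G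
    · rw [nxt_open h, nxt_open ((hstep j h1 h2).2 h)]
    · rw [nxt_closed h, nxt_closed (fun h' => h ((hstep j h1 h2).1 h'))]
  have horb : ∀ i, i < M → orb (D.cfg F') (τ 1) i = τ (1 + i) := by
    intro i
    induction i with
    | zero => intro _; rfl
    | succ i ih =>
      intro h
      rw [orb_succ, ih (by omega), hnxt (1 + i) (by omega) (by omega)]
      rfl
  -- the clusters
  have hclu : ∀ i, i < M → Reach (D.cfg F') (τ 1).1 (τ (1 + i)).1 ∧
      DReach (↑D.edges \ D.cfg F' : Set Edg) (face (τ 1)) (face (τ (1 + i))) := by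
    intro i
    induction i with
    | zero => intro _; exact ⟨Reach.refl _ _, DReach.refl _ _⟩
    | succ i ih =>
      intro h
      obtain ⟨h1, h2⟩ := ih (by omega)
      have h3 := hnxt (1 + i) (by omega) (by omega)
      have h4 : 1 + (i + 1) = 1 + i + 1 := rfl
      rw [h4, ← h3]
      by_cases ho : ae (τ (1 + i)) ∈ D.cfg F'
      · rw [nxt_open ho, p2_face_mv]
        exact ⟨h1.trans (Adj.reach ⟨_, ho, p2_ends _⟩), h2⟩
      · rw [nxt_closed ho, p2_rt_fst]
        refine ⟨h1, h2.trans (DAdj.reach ⟨_, ⟨?_, ho⟩, p2_dends _⟩)⟩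
        exact Finset.mem_coe.2 (ae_edge (hin (1 + i) (by omega) (by omega)))
  have he0 : ae (τ 0) ∈ D.edges := by
    refine ae_edge' ?_
    rw [← hs0.2]
    exact hin 1 le_rfl hM
  have heM : ae (τ M) ∈ D.edges := ae_edge (hin M hM le_rfl)
  have hM1 : 1 + (M - 1) = M := by omega
  -- a wired edge at one end
  have hv : (τ 1).1 ∈ D.clu F' := by
    by_cases hw : ae (τ 0) ∈ D.wir
    · have h1 := wir_clu hD F' hw
      rw [hs0.2, p2_rt_fst]
      rcases p2_ends (τ 0) with ⟨h2, _⟩ | ⟨_, h2⟩
      · rw [← h2]; exact h1.1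
      · rw [← h2]; exact h1.2
    · have hw' : ae (τ M) ∈ D.wir := by
        by_contra hc
        exact hw (hwir.2 hc)
      have h1 := wir_clu hD F' hw'
      have h2 : (τ M).1 ∈ D.clu F' := by
        rcases p2_ends (τ M) with ⟨h2, _⟩ | ⟨_, h2⟩
        · rw [← h2]; exact h1.1
        · rw [← h2]; exact h1.2
      have h3 := (hclu (M - 1) (by omega)).1
      rw [hM1] at h3
      have h4 : Reach (D.cfg F') (0, 0) (τ M).1 := h2
      exact h4.trans h3.symm
  have hf : face (τ 1) ∈ D.dclu F' := by
    by_cases hw : ae (τ 0) ∈ D.wir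
    · have hw' : ae (τ M) ∉ D.wir := hwir.1 hw
      have h1 := (outer_of hD heM hw').2 (by rw [← hsM.2]; exact houtM)
      have h3 := (hclu (M - 1) (by omega)).2
      rw [hM1] at h3
      have hcl : ae (τ M) ∉ D.cfg F' := by
        rintro (h | h)
        · exact hsM.1 ((hF' _).1 (Finset.mem_coe.1 h)).2
        · exact hw' h
      refine ⟨face (rt (τ M)), h1, ?_⟩
      refine DReach.trans (DReach.symm (DAdj.reach ⟨_, ⟨Finset.mem_coe.2 heM, hcl⟩, p2_dends _⟩)) ?_
      exact h3.symm
    · have h1 := (outer_of hD he0 hw).1 hout0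
      have hcl : ae (τ 0) ∉ D.cfg F' := by
        rintro (h | h)
        · exact hs0.1 ((hF' _).1 (Finset.mem_coe.1 h)).2
        · exact hw h
      refine ⟨face (τ 0), h1, ?_⟩
      rw [hs0.2]
      exact DAdj.reach ⟨_, ⟨Finset.mem_coe.2 he0, hcl⟩, p2_dends _⟩
  obtain ⟨k0, hk0, hwalk⟩ := vis_of hD hFe hv hf (hin 1 le_rfl hM)
  have hw : ∀ i, i < M → D.walk F' (k0 + i) = τ (1 + i) := by
    intro i hi
    rw [← horb i hi, ← hwalk]
    unfold Dm.walk
    rw [add_comm k0 i, orb_add]
  refine ⟨k0, ?_, hw⟩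
  -- the end is not reached
  have hlen := walk_len hD hFe
  by_contra hcon
  push Not at hcon
  have h1 : D.len F' - k0 < M := by omega
  have h2 := hw (D.len F' - k0) h1
  have h3 : k0 + (D.len F' - k0) = D.len F' := by omega
  rw [h3, hlen] at h2
  have h4 := hin (1 + (D.len F' - k0)) (by omega) (by omega)
  rw [← h2] at h4
  apply h4
  unfold Out Dm.stop
  rw [face_se]
  simp only
  omega

end Pool.Agent.Y995.LG
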