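import Pool.Agent.H984R4.NP.Model
import Pool.Agent.H342R3.Tig.Defs
import Pool.Agent.TH992.T.Vis

/-!
The outer perimeter of the largest cluster of critical percolation in `{0, …, n}²` in its natural
parametrisation, and exploration paths of small rectangles of the unit square.
-/

set_option autoImplicit false

namespace Pool.Agent.Y995.LG

open H984P H984N MeasureTheory Filter Topology
open scoped ENNReal

/-- The sets of edges and vertices of `H342P.Plain`. -/
abbrev Edge := H342P.Plain.Edge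

/-- `p = (c, T)`, where `c` is the closed lattice path tracing the outer boundary of the cluster of
`v` (see `H342T.IsTrace`), with constant speed and scaled by `1 / n`, and `T` is its number of
steps divided by `n ^ (7/4)`. -/
def IsNat (n : ℕ) (F : Finset Edge) (v : ℤ × ℤ) (p : X) : Prop :=
  ∃ (σ : St) (N : ℕ), 0 < N ∧ σ.1 ∈ H342P.Plain.cluster F v ∧ H342P.Plain.Outer F v (face σ) ∧
    orb (↑F) σ N = σ ∧ (∀ j, 0 < j → j < N → orb (↑F) σ j ≠ σ) ∧
    p = (H342T.poly (fun j => H342L.pt n (orb (↑F) σ j).1) N, (N : ℝ) / (n : ℝ) ^ (7/4 : ℝ))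

/-! ### Translations -/

/-- Translation of edges. -/
def sh (s : ℤ × ℤ) (e : Edge) : Edge := (e.1 + s.1, e.2.1 + s.2, e.2.2)

/-- Translation of states. -/
def shS (s : ℤ × ℤ) (σ : St) : St := ((σ.1.1 + s.1, σ.1.2 + s.2), σ.2)

/-! ### Rectangles in the unit square -/

/-- The rectangle `(l, r) × (b, h)` in the open unit square, with the point `α + i h` on its top side
and the point `β + i b` on its bottom side. -/
structure Loc where
  l : ℝ
  r : ℝ
  b : ℝ
  h : ℝ
  α : ℝ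
  β : ℝ
  l0 : 0 < l
  r1 : r < 1
  b0 : 0 < b
  bh : b < h
  h1 : h < 1
  lα : l < α
  αr : α < r
  lβ : l < β
  βr : β < r

namespace Loc

variable (κ : Loc)

/-- The rectangle, translated such that its bottom point is the origin. -/
noncomputable def R : Rect where
  A := κ.β - κ.l
  B := κ.r - κ.β
  H := κ.h - κ.b
  t := κ.α - κ.β
  hA := by linarith [κ.lβ]
  hB := by linarith [κ.βr]
  hH := by linarith [κ.bh]
  ht1 := by linarith [κ.lα]
  ht2 := by linarith [κ.αr]

/-- The bottom point. -/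
noncomputable def z : ℂ := ⟨κ.β, κ.b⟩

/-- The lattice translation. -/
noncomputable def s (n : ℕ) : ℤ × ℤ := (⌊(n : ℝ) * κ.β⌋, ⌊(n : ℝ) * κ.b⌋ + 1)

/-- The lattice rectangle. -/
noncomputable def dm (n : ℕ) : Dm := κ.R.dm (1 / (n : ℝ))

open Classical in
/-- The configuration in the lattice rectangle. -/
noncomputable def cfg (n : ℕ) (F : Finset Edge) : Finset Edge :=
  (κ.dm n).edges.filter (fun e => sh (κ.s n) e ∈ F)

/-- The exploration path in the rectangle and its natural time, from the configuration in the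
box. -/
noncomputable def Y (n : ℕ) (F : Finset Edge) : X :=
  (κ.R.curve (1 / (n : ℝ)) (κ.cfg n F), κ.R.time (1 / (n : ℝ)) (κ.cfg n F))

/-- The open rectangle. -/
def op : Set ℂ := {z | κ.l < z.re ∧ z.re < κ.r ∧ κ.b < z.im ∧ z.im < κ.h}

/-- The wired part of the boundary. -/
def left : Set ℂ := {z | (z.re = κ.l ∧ κ.b ≤ z.im ∧ z.im ≤ κ.h) ∨
  (z.im = κ.h ∧ κ.l ≤ z.re ∧ z.re < κ.α) ∨ (z.im = κ.b ∧ κ.l ≤ z.re ∧ z.re < κ.β)}

/-- The other part of the boundary. -/
def right : Set ℂ := {z | (z.re = κ.r ∧ κ.b ≤ z.im ∧ z.im ≤ κ.h) ∨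
  (z.im = κ.h ∧ κ.α < z.re ∧ z.re ≤ κ.r) ∨ (z.im = κ.b ∧ κ.β < z.re ∧ z.re ≤ κ.r)}

end Loc

/-- The open unit square. -/
def sq : Set ℂ := {z | 0 < z.re ∧ z.re < 1 ∧ 0 < z.im ∧ z.im < 1}

/-! ### Closed curves -/

/-- The periodic extension of a closed curve. -/
noncomputable def per (c : C(unitInterval, ℂ)) (t : ℝ) : ℂ :=
  c ⟨Int.fract t, Int.fract_nonneg t, (Int.fract_lt_one t).le⟩

/-- `x` is not the value of a local extremum of `f` along the curve. -/
def Gen (f : ℂ → ℝ) (x : ℝ) (c : ℝ → ℂ) : Prop := ∀ t, f (c t) = x → ∀ ε : ℝ, 0 < ε →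
  (∃ s, |s - t| < ε ∧ f (c s) < x) ∧ ∃ s, |s - t| < ε ∧ x < f (c s)

/-- There is no double point on the line `f = x`. -/
def NoDbl (f : ℂ → ℝ) (x : ℝ) (c : ℝ → ℂ) : Prop :=
  ∀ s t : ℝ, s < t → t < s + 1 → c s = c t → f (c s) ≠ x

/-- The double points of a closed curve. -/
def dbl (c : C(unitInterval, ℂ)) : Set ℂ :=
  {z | ∃ s t : unitInterval, s < t ∧ c s = z ∧ c t = z ∧
    (∃ u : unitInterval, (s < u ∧ u < t) ∧ c u ≠ z) ∧
    ∃ u : unitInterval, (u < s ∨ t < u) ∧ c u ≠ z}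

/-- The arc of `p` between the times `u < v` is an arc of `q`, translated by `z`, with the same
natural time. -/
def SegRel (p q : X) (z : ℂ) (u v : ℝ) : Prop :=
  ∃ u' v' : ℝ, 0 ≤ u' ∧ u' ≤ v' ∧ v' ≤ 1 ∧ p.2 * (v - u) = q.2 * (v' - u') ∧
    ∀ s : ℝ, 0 ≤ s → s ≤ 1 → per p.1 (u + s * (v - u)) =
      z + Set.IccExtend (zero_le_one : (0 : ℝ) ≤ 1) q.1 (u' + s * (v' - u'))

/-- The gauge inequality for the Borel measure `H`. -/
def GI (H : Measure ℂ) (c C : ℝ) (q : X) : Prop := 0 < q.2 ∧ ∀ S : Set unitInterval,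
  ENNReal.ofReal (c * q.2) * volume S ≤ H (q.1 '' S) ∧
  H (q.1 '' S) ≤ ENNReal.ofReal (C * q.2) * volume S

/-- The arc of the periodic curve on `(u, v)` crosses the rectangle, from one part of its boundary
to the other. -/
def Crs (κ : Loc) (c : ℝ → ℂ) (u v : ℝ) : Prop :=
  u < v ∧ v < u + 1 ∧ (∀ t, u < t → t < v → c t ∈ κ.op) ∧
    ((c u ∈ κ.left ∧ c v ∈ κ.right) ∨ (c u ∈ κ.right ∧ c v ∈ κ.left))

/-- The four lines are generic. -/
def GenBox (κ : Loc) (c : ℝ → ℂ) : Prop :=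
  Gen Complex.re κ.l c ∧ Gen Complex.re κ.r c ∧ Gen Complex.im κ.b c ∧ Gen Complex.im κ.h c

/-- The lattice path with states `τ 0, …, τ (M + 1)` enters the lattice rectangle after the state
`τ 0` and leaves it after the state `τ M`, through different parts of the boundary. -/
def DCrs (D : Dm) (τ : ℕ → St) (M : ℕ) : Prop :=
  1 ≤ M ∧ TH992.T.Out D (face (τ 0)) ∧ (∀ j, 1 ≤ j → j ≤ M → ¬ TH992.T.Out D (face (τ j))) ∧
    TH992.T.Out D (face (τ (M + 1))) ∧ (ae (τ 0) ∈ D.wir ↔ ae (τ M) ∉ D.wir)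

end Pool.Agent.Y995.LG
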