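import Pool.Agent.Y995.LG.Stm
import Pool.Agent.Y995.HG.Zero

/-!
Diagonal subsequences; sets of small dimension have gauge measure zero.
-/

set_option autoImplicit false

namespace Pool.Agent.Y995.LG

open H984P H984N MeasureTheory Filter Topology Pool.Agent.Y995.HG
open scoped ENNReal NNReal

theorem diag : S_DIAG := by
  intro Z _ a h
  -- nested subsequences
  have hstep : ∀ (j : ℕ) (φ : {φ : ℕ → ℕ // StrictMono φ}), ∃ ψ : {ψ : ℕ → ℕ // StrictMono ψ},
      ∃ y, Tendsto (fun i => a j (φ.1 (ψ.1 i))) atTop (𝓝 y) := by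
    rintro j ⟨φ, hφ⟩
    obtain ⟨ψ, hψ, y, hy⟩ := h j φ hφ
    exact ⟨⟨ψ, hψ⟩, y, hy⟩
  choose g hg using hstep
  let Φ : ℕ → {φ : ℕ → ℕ // StrictMono φ} := fun n =>
    Nat.rec ⟨id, strictMono_id⟩ (fun j φ => ⟨fun i => φ.1 ((g j φ).1 i), φ.2.comp (g j φ).2⟩) n
  have hΦ0 : (Φ 0).1 = id := rfl
  have hΦs : ∀ j, (Φ (j + 1)).1 = fun i => (Φ j).1 ((g j (Φ j)).1 i) := fun j => rfl
  -- `Φ j` is a subsequence of `Φ j0`
  have hsub : ∀ j0 d, ∃ ψ : ℕ → ℕ, StrictMono ψ ∧ ∀ i, (Φ (j0 + d)).1 i = (Φ j0).1 (ψ i) := by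
    intro j0 d
    induction d with
    | zero => exact ⟨id, strictMono_id, fun i => rfl⟩
    | succ d ih =>
      obtain ⟨ψ, hψ, h1⟩ := ih
      refine ⟨fun i => ψ ((g (j0 + d) (Φ (j0 + d))).1 i), hψ.comp (g _ _).2, fun i => ?_⟩
      have h2 : j0 + (d + 1) = j0 + d + 1 := rfl
      rw [h2, hΦs]
      exact h1 _
  refine ⟨fun i => (Φ i).1 i, ?_, fun j => ?_⟩
  · refine strictMono_nat_of_lt_succ (fun n => ?_)
    have h1 : (Φ (n + 1)).1 (n + 1) = (Φ n).1 ((g n (Φ n)).1 (n + 1)) := by rw [hΦs]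
    rw [h1]
    exact (Φ n).2 (lt_of_lt_of_le (Nat.lt_succ_self n) (StrictMono.id_le (g n (Φ n)).2 _))
  · obtain ⟨y, hy⟩ := hg j (Φ j)
    refine ⟨y, ?_⟩
    -- the diagonal is eventually a subsequence of `Φ (j + 1)`
    choose ψ hψ1 hψ2 using hsub (j + 1)
    have h1 : Tendsto (fun i => a j ((Φ (j + 1)).1 (ψ i (j + 1 + i)))) atTop (𝓝 y) := by
      have h2 : Tendsto (fun i => ψ i (j + 1 + i)) atTop atTop := by
        refine tendsto_atTop_mono (fun i => ?_) tendsto_id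
        exact le_trans (show id i ≤ j + 1 + i by simp) (StrictMono.id_le (hψ1 i) _)
      exact (hy.comp h2).congr (fun i => by
        simp only [Function.comp_apply]
        rw [hΦs])
    have h3 : Tendsto (fun i => a j ((Φ (j + 1 + i)).1 (j + 1 + i))) atTop (𝓝 y) := by
      refine h1.congr (fun i => ?_)
      rw [hψ2 i]
    have h4 : Tendsto (fun i => a j ((Φ (i + (j + 1))).1 (i + (j + 1)))) atTop (𝓝 y) := by
      refine h3.congr (fun i => ?_)
      rw [add_comm (j + 1) i]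
    exact (tendsto_add_atTop_iff_nat (j + 1)).1 h4

theorem gm_small {s : ℝ} (hs0 : 0 < s) (hs : s < 7 / 4) :
    gm ≤ᶠ[𝓝 0] (fun r : ℝ≥0∞ => r ^ s) := by
  -- `(log log (1/x))^(1/8) ≤ x^(s - 7/4)` for small `x`
  have h1 : ∀ᶠ x : ℝ in 𝓝[>] 0, ga x ≤ x ^ s := by
    have hlog : Tendsto (fun x : ℝ => Real.log (1 / x)) (𝓝[>] 0) atTop := by
      have : (fun x : ℝ => Real.log (1 / x)) = fun x => -Real.log x := by
        funext x
        rw [one_div, Real.log_inv]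
      rw [this]
      exact tendsto_neg_atBot_atTop.comp Real.tendsto_log_nhdsGT_zero
    have e0 : 0 < 7 / 4 - s := by linarith
    -- `log (1/x) ≤ x^{-(7/4 - s)}` eventually
    have h2 : ∀ᶠ y : ℝ in atTop, Real.log y ≤ y ^ (7 / 4 - s) := by
      have := isLittleO_log_rpow_atTop e0
      have h3 := this.bound (show (0:ℝ) < 1 by norm_num)
      filter_upwards [h3, eventually_ge_atTop 1] with y hy hy1
      rw [one_mul, Real.norm_of_nonneg (Real.log_nonneg hy1),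
        Real.norm_of_nonneg (by positivity)] at hy
      exact hy
    have h4 : Tendsto (fun x : ℝ => 1 / x) (𝓝[>] 0) atTop := by
      simp only [one_div]
      exact tendsto_inv_nhdsGT_zero
    filter_upwards [h4.eventually h2, hlog.eventually (eventually_ge_atTop (Real.exp 1)),
      self_mem_nhdsWithin] with x hx1 hx2 hx3
    have hx0 : (0:ℝ) < x := hx3
    unfold ga
    have g1 : 1 ≤ Real.log (Real.log (1 / x)) := by
      have := Real.log_le_log (Real.exp_pos 1) hx2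
      rwa [Real.log_exp] at this
    have g2 : Real.log (Real.log (1 / x)) ≤ Real.log (1 / x) := by
      have g3 : 0 < Real.log (1 / x) := lt_of_lt_of_le (Real.exp_pos 1) hx2
      have := Real.log_le_sub_one_of_pos g3
      linarith
    have g4 : Real.log (Real.log (1 / x)) ^ (1 / 8 : ℝ) ≤ Real.log (Real.log (1 / x)) := by
      calc Real.log (Real.log (1 / x)) ^ (1 / 8 : ℝ) ≤ Real.log (Real.log (1 / x)) ^ (1 : ℝ) :=
            Real.rpow_le_rpow_of_exponent_le g1 (by norm_num)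
        _ = _ := Real.rpow_one _
    have g5 : Real.log (Real.log (1 / x)) ^ (1 / 8 : ℝ) ≤ (1 / x) ^ (7 / 4 - s) :=
      (g4.trans g2).trans hx1
    calc x ^ (7 / 4 : ℝ) * Real.log (Real.log (1 / x)) ^ (1 / 8 : ℝ)
        ≤ x ^ (7 / 4 : ℝ) * (1 / x) ^ (7 / 4 - s) :=
          mul_le_mul_of_nonneg_left g5 (by positivity)
      _ = x ^ s := by
          rw [one_div, Real.inv_rpow hx0.le, ← Real.rpow_neg hx0.le, ← Real.rpow_add hx0]
          congr 1
          ring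
  obtain ⟨r0, hr0, hr⟩ := (mem_nhdsGT_iff_exists_Ioo_subset).1 h1
  have hr0' : (0:ℝ) < r0 := hr0
  have h5 : ∀ᶠ r : ℝ≥0∞ in 𝓝 0, r < ENNReal.ofReal r0 := by
    exact Iio_mem_nhds (ENNReal.ofReal_pos.mpr hr0')
  filter_upwards [h5] with r hrr
  have hfin : r ≠ ⊤ := (hrr.trans_le le_top).ne
  have hx0 : 0 ≤ r.toReal := ENNReal.toReal_nonneg
  have hxr : r.toReal < r0 := by
    have := (ENNReal.toReal_lt_toReal hfin ENNReal.ofReal_ne_top).2 hrr
    rwa [ENNReal.toReal_ofReal hr0'.le] at this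
  unfold gm
  rcases hx0.eq_or_lt with h0 | h0
  · rw [← h0]
    unfold ga
    rw [Real.zero_rpow (by norm_num), zero_mul, ENNReal.ofReal_zero]
    exact zero_le
  · have h6 : ga r.toReal ≤ r.toReal ^ s := hr ⟨h0, hxr⟩
    refine (ENNReal.ofReal_le_ofReal h6).trans ?_
    rw [← ENNReal.ofReal_rpow_of_nonneg hx0 hs0.le, ENNReal.ofReal_toReal hfin]

theorem nul (E : Set ℂ) (h : dimH E < 7 / 4) : Measure.mkMetric gm E = 0 := by
  obtain ⟨s, hs1, hs2⟩ := ENNReal.lt_iff_exists_nnreal_btwn.1 h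
  have e1 : (7 / 4 : ℝ≥0∞) = ((7 / 4 : ℝ≥0) : ℝ≥0∞) := by
    rw [ENNReal.coe_div (by norm_num)]
    norm_num
  have h2 : (s : ℝ) < 7 / 4 := by
    rw [e1, ENNReal.coe_lt_coe] at hs2
    have : (s : ℝ) < ((7 / 4 : ℝ≥0) : ℝ) := by exact_mod_cast hs2
    simpa using this
  have h3 : Measure.hausdorffMeasure (s : ℝ) E = 0 := hausdorffMeasure_of_dimH_lt hs1
  have hs0 : (0 : ℝ) < s := by
    have : (0 : ℝ≥0∞) < s := lt_of_le_of_lt zero_le hs1
    exact_mod_cast this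
  have h4 : Measure.mkMetric gm ≤ (Measure.mkMetric (fun r : ℝ≥0∞ => r ^ (s : ℝ)) : Measure ℂ) :=
    Measure.mkMetric_mono (gm_small hs0 h2)
  exact le_antisymm ((h4 E).trans (le_of_eq h3)) zero_le

theorem sqc_sub : closure sq \ sq ⊆ (⋃ b ∈ ({0, 1} : Set ℝ), {z : ℂ | z.re = b}) ∪
    ⋃ b ∈ ({0, 1} : Set ℝ), {z : ℂ | z.im = b} := by
  have h1 : closure sq ⊆ {z : ℂ | (0 ≤ z.re ∧ z.re ≤ 1) ∧ 0 ≤ z.im ∧ z.im ≤ 1} := by
    refine closure_minimal (fun z hz => ⟨⟨hz.1.le, hz.2.1.le⟩, hz.2.2.1.le, hz.2.2.2.le⟩) ?_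
    exact ((isClosed_le continuous_const Complex.continuous_re).inter
      (isClosed_le Complex.continuous_re continuous_const)).inter
      ((isClosed_le continuous_const Complex.continuous_im).inter
      (isClosed_le Complex.continuous_im continuous_const))
  rintro z ⟨hz, hz2⟩
  obtain ⟨⟨a1, a2⟩, a3, a4⟩ := h1 hz
  simp only [Set.mem_union, Set.mem_iUnion, Set.mem_insert_iff, Set.mem_singleton_iff,
    Set.mem_ofPred_eq, exists_prop]
  by_contra hcon
  push Not at hcon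
  apply hz2
  obtain ⟨b1, b2⟩ := hcon
  refine ⟨lt_of_le_of_ne a1 (fun h => b1 0 (Or.inl rfl) h.symm),
    lt_of_le_of_ne a2 (fun h => b1 1 (Or.inr rfl) h),
    lt_of_le_of_ne a3 (fun h => b2 0 (Or.inl rfl) h.symm),
    lt_of_le_of_ne a4 (fun h => b2 1 (Or.inr rfl) h)⟩

theorem bdim : dimH (closure sq \ sq) ≤ 1 := by
  refine (dimH_mono sqc_sub).trans ?_
  have hline : ∀ (b : ℝ), dimH {z : ℂ | z.re = b} ≤ 1 := by
    intro b
    have h1 : {z : ℂ | z.re = b} = (fun y : ℝ => (⟨b, y⟩ : ℂ)) '' Set.univ := by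
      ext z
      simp only [Set.mem_ofPred_eq, Set.image_univ, Set.mem_range]
      exact ⟨fun h => ⟨z.im, Complex.ext h.symm rfl⟩, fun ⟨y, hy⟩ => by rw [← hy]⟩
    rw [h1]
    have h2 : LipschitzWith 1 (fun y : ℝ => (⟨b, y⟩ : ℂ)) := by
      refine LipschitzWith.of_dist_le_mul (fun x y => ?_)
      rw [NNReal.coe_one, one_mul, Complex.dist_of_re_eq (z := ⟨b, x⟩) (w := ⟨b, y⟩) rfl]
    refine (h2.dimH_image_le _).trans ?_
    rw [Real.dimH_univ]
  have hline' : ∀ (b : ℝ), dimH {z : ℂ | z.im = b} ≤ 1 := by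
    intro b
    have h1 : {z : ℂ | z.im = b} = (fun y : ℝ => (⟨y, b⟩ : ℂ)) '' Set.univ := by
      ext z
      simp only [Set.mem_ofPred_eq, Set.image_univ, Set.mem_range]
      exact ⟨fun h => ⟨z.re, Complex.ext rfl h.symm⟩, fun ⟨y, hy⟩ => by rw [← hy]⟩
    rw [h1]
    have h2 : LipschitzWith 1 (fun y : ℝ => (⟨y, b⟩ : ℂ)) := by
      refine LipschitzWith.of_dist_le_mul (fun x y => ?_)
      rw [NNReal.coe_one, one_mul, Complex.dist_of_im_eq (z := ⟨x, b⟩) (w := ⟨y, b⟩) rfl]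
    refine (h2.dimH_image_le _).trans ?_
    rw [Real.dimH_univ]
  rw [dimH_union]
  refine max_le ?_ ?_
  · rw [dimH_bUnion (Set.toFinite _).countable]
    exact iSup₂_le (fun b _ => hline b)
  · rw [dimH_bUnion (Set.toFinite _).countable]
    exact iSup₂_le (fun b _ => hline' b)

theorem bd : Measure.mkMetric gm (closure sq \ sq) = 0 := by
  refine nul _ (lt_of_le_of_lt bdim ?_)
  rw [ENNReal.lt_div_iff_mul_lt (Or.inl (by norm_num)) (Or.inl (by norm_num))]
  norm_num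

end Pool.Agent.Y995.LG
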