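import Pool.Agent.Y995.LG.Stm

/-!
Statements (nothing is assumed here) of the second part: dimensions and fast times.
-/

set_option autoImplicit false

namespace Pool.Agent.Y995.LG

open H984P H984N MeasureTheory Filter Topology
open scoped ENNReal

/-- Every time at which the closed curve is in the open square is in the interior of an arc which is
a translate of an arc of an element of `G`, with the same natural time. -/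
def LocG (G : Set X) (p : X) : Prop := ∀ t0 : ℝ, 1 ≤ t0 → t0 < 2 → per p.1 t0 ∈ sq →
  ∃ (u v : ℝ) (z : ℂ) (q : X), 0 < u ∧ u < t0 ∧ t0 < v ∧ v < u + 1 ∧ q ∈ G ∧ SegRel p q z u v ∧
    ∃ s, u < s ∧ s < v ∧ per p.1 s ≠ per p.1 u

/-- Fast times: `u` such that for arbitrarily small `h > 0` there is a time `v` with
`T |v - u| ≤ h` and `dist (f v) (f u) ≥ θ h ^ (4/7) (log (1/h)) ^ (3/7)`. -/
def Ft (θ : ℝ) (p : X) : Set unitInterval :=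
  {u | ∃ᶠ h : ℝ in 𝓝[>] 0, ∃ v : unitInterval, p.2 * |(v : ℝ) - u| ≤ h ∧
    θ * (h ^ (4/7 : ℝ) * Real.log (1 / h) ^ (3/7 : ℝ)) ≤ dist (p.1 v) (p.1 u)}

/-- Properties of the exploration paths. -/
def FG (c C θ0 : ℝ) : Set X :=
  {q | 0 < q.2 ∧ (∀ E : Set unitInterval, dimH (q.1 '' E) = 7 / 4 * dimH E) ∧
    ∀ θ : ℝ, 0 < θ → θ ≤ θ0 → dimH (Ft θ q) ≤ ENNReal.ofReal (1 - c * θ ^ (7/3 : ℝ)) ∧
      ∀ s t : unitInterval, s < t → ENNReal.ofReal (1 - C * θ ^ (7/3 : ℝ)) ≤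
        dimH (Set.Icc s t ∩ Ft θ q)}

/-- ARC: affine parametrisation of arcs. -/
def S_ARC : Prop := ∀ (p q : X) (z : ℂ) (u v : ℝ), p.1 0 = p.1 1 → 0 < q.2 → SegRel p q z u v →
  u < v → (∃ s, u < s ∧ s < v ∧ per p.1 s ≠ per p.1 u) →
  ∃ (lam : ℝ → unitInterval) (ρ : ℝ), 0 < ρ ∧ 0 < p.2 ∧ p.2 = q.2 * ρ ∧
    (∀ s t : ℝ, s ∈ Set.Icc u v → t ∈ Set.Icc u v → (lam t : ℝ) - lam s = ρ * (t - s)) ∧
    ∀ t ∈ Set.Icc u v, per p.1 t = z + q.1 (lam t)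

/-- COV: countable cover by arcs. -/
def S_COV : Prop := ∀ (G : Set X) (p : X), p.1 0 = p.1 1 → (∃ t, p.1 t ∈ sq) → LocG G p →
  ∃ (u v : ℕ → ℝ) (z : ℕ → ℂ) (q : ℕ → X),
    (∀ i, 0 < u i ∧ u i < v i ∧ v i < u i + 1 ∧ q i ∈ G ∧ SegRel p (q i) (z i) (u i) (v i) ∧
      ∃ s, u i < s ∧ s < v i ∧ per p.1 s ≠ per p.1 (u i)) ∧
    ∀ t : ℝ, 1 ≤ t → t < 2 → per p.1 t ∈ sq → ∃ i, u i < t ∧ t < v i

/-- UNI: the dimension formula. -/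
def S_UNI : Prop := ∀ (G : Set X) (p : X),
  (∀ q ∈ G, 0 < q.2 ∧ ∀ E : Set unitInterval, dimH (q.1 '' E) = 7 / 4 * dimH E) →
  p.1 0 = p.1 1 → (∃ t, p.1 t ∈ sq) → LocG G p →
  ∀ E : Set unitInterval, (∀ t ∈ E, p.1 t ∈ sq) → dimH (p.1 '' E) = 7 / 4 * dimH E

/-- FAST: the dimension of the set of fast times. -/
def S_FAST : Prop := ∀ (c C θ0 : ℝ) (G : Set X) (p : X), G ⊆ FG c C θ0 →
  p.1 0 = p.1 1 → (∃ t, p.1 t ∈ sq) → volume {t : unitInterval | p.1 t ∉ sq} = 0 → LocG G p →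
  ∀ θ : ℝ, 0 < θ → θ ≤ θ0 → ∀ s t : unitInterval, s < t →
    ENNReal.ofReal (1 - C * θ ^ (7/3 : ℝ)) ≤
      dimH {u | u ∈ Set.Icc s t ∧ p.1 u ∈ sq ∧ u ∈ Ft θ p} ∧
    dimH {u | u ∈ Set.Icc s t ∧ p.1 u ∈ sq ∧ u ∈ Ft θ p} ≤ ENNReal.ofReal (1 - c * θ ^ (7/3 : ℝ))

end Pool.Agent.Y995.LG
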