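import Pool.Agent.Y995.LG.Stm
import Pool.Agent.H984R4.NP.Bulk

/-!
The law of the exploration path in a rectangle of the unit square; translations of orbits; the
periodic extension of curves near closed lattice paths.
-/

set_option autoImplicit false

namespace Pool.Agent.Y995.LG

open H974 Finset H342P H984P H984N MeasureTheory Filter Topology

theorem sh_eq (s : ℤ × ℤ) (e : Edg) : sh s e = (trl s.1 s.2).φ e := rfl

theorem shS_eq (s : ℤ × ℤ) (σ : St) : shS s σ = bulk_tS s.1 s.2 σ := rfl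

theorem sh_sh (s : ℤ × ℤ) (e : Edg) : sh s (sh (-s) e) = e := by
  obtain ⟨x, y, b⟩ := e
  simp [sh]

theorem sh_nxt (s : ℤ × ℤ) (F : Set Edge) (σ : St) :
    nxt {e : Edge | sh s e ∈ F} (shS (-s) σ) = shS (-s) (nxt F σ) := by
  have h0 : ae (shS (-s) σ) = sh (-s) (ae σ) := by
    rw [shS_eq, bulk_ae, sh_eq]
  have h1 : ae (shS (-s) σ) ∈ {e : Edge | sh s e ∈ F} ↔ ae σ ∈ F := by
    rw [h0, Set.mem_ofPred_eq, sh_sh]
  by_cases h : ae σ ∈ F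
  · rw [nxt_open h, nxt_open (h1.2 h), shS_eq, shS_eq, bulk_mv]
  · rw [nxt_closed h, nxt_closed (fun h' => h (h1.1 h')), shS_eq, shS_eq, bulk_rt]

theorem sh' : S_SH := by
  intro s F σ j
  induction j with
  | zero => rfl
  | succ j ih => rw [orb_succ, orb_succ, ih, sh_nxt]

theorem div_one_div (x : ℝ) (n : ℕ) : x / (1 / (n : ℝ)) = x * n := by
  rw [div_div_eq_mul_div, div_one]

theorem dm_eq (κ : Loc) (n : ℕ) : κ.dm n = ⟨⌊-((κ.β - κ.l) * n)⌋ + 1, ⌈(κ.r - κ.β) * n⌉ - 1,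
    ⌈(κ.h - κ.b) * n⌉ - 2, ⌊(κ.α - κ.β) * n⌋⟩ := by
  unfold Loc.dm Rect.dm
  simp only [div_one_div]
  rfl

theorem dm_ok (κ : Loc) : ∃ n0 : ℕ, ∀ n ≥ n0, (κ.dm n).Ok := by
  have h1 := κ.lβ
  have h2 := κ.βr
  have h3 := κ.bh
  have h4 := κ.lα
  have h5 := κ.αr
  have h6 := κ.l0
  obtain ⟨m, hm⟩ : ∃ m : ℝ, m = min (min (κ.β - κ.l) (κ.r - κ.β)) (min (κ.h - κ.b)
    (min (κ.α - κ.l) (κ.r - κ.α))) := ⟨_, rfl⟩
  have hm0 : 0 < m := by
    rw [hm]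
    refine lt_min (lt_min ?_ ?_) (lt_min ?_ (lt_min ?_ ?_)) <;> linarith
  have m1 : m ≤ κ.β - κ.l := by rw [hm]; exact (min_le_left _ _).trans (min_le_left _ _)
  have m2 : m ≤ κ.r - κ.β := by rw [hm]; exact (min_le_left _ _).trans (min_le_right _ _)
  have m3 : m ≤ κ.h - κ.b := by rw [hm]; exact (min_le_right _ _).trans (min_le_left _ _)
  have m4 : m ≤ κ.α - κ.l := by
    rw [hm]
    exact (min_le_right _ _).trans ((min_le_right _ _).trans (min_le_left _ _))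
  have m5 : m ≤ κ.r - κ.α := by
    rw [hm]
    exact (min_le_right _ _).trans ((min_le_right _ _).trans (min_le_right _ _))
  obtain ⟨n0, hn0⟩ := exists_nat_gt (3 / m)
  refine ⟨n0, fun n hn => ?_⟩
  have hnm : 3 < m * n := by
    have : (n0 : ℝ) ≤ n := by exact_mod_cast hn
    rw [div_lt_iff₀ hm0] at hn0
    nlinarith
  have hn' : (0:ℝ) ≤ n := Nat.cast_nonneg n
  have g1 : m * n ≤ (κ.β - κ.l) * n := mul_le_mul_of_nonneg_right m1 hn'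
  have g2 : m * n ≤ (κ.r - κ.β) * n := mul_le_mul_of_nonneg_right m2 hn'
  have g3 : m * n ≤ (κ.h - κ.b) * n := mul_le_mul_of_nonneg_right m3 hn'
  have g4 : m * n ≤ (κ.α - κ.l) * n := mul_le_mul_of_nonneg_right m4 hn'
  have g5 : m * n ≤ (κ.r - κ.α) * n := mul_le_mul_of_nonneg_right m5 hn'
  have f1 : (⌊-((κ.β - κ.l) * n)⌋ : ℝ) ≤ -((κ.β - κ.l) * n) := Int.floor_le _
  have f2 : (κ.r - κ.β) * n ≤ (⌈(κ.r - κ.β) * n⌉ : ℝ) := Int.le_ceil _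
  have f3 : (κ.h - κ.b) * n ≤ (⌈(κ.h - κ.b) * n⌉ : ℝ) := Int.le_ceil _
  have f4 : (⌊(κ.α - κ.β) * n⌋ : ℝ) ≤ (κ.α - κ.β) * n := Int.floor_le _
  have f5 : (κ.α - κ.β) * n < (⌊(κ.α - κ.β) * n⌋ : ℝ) + 1 := Int.lt_floor_add_one _
  rw [dm_eq]
  refine ⟨?_, ?_, ?_, ?_, ?_⟩
  · have : ((⌊-((κ.β - κ.l) * n)⌋ + 1 : ℤ) : ℝ) < ((0 : ℤ) : ℝ) := by
      push_cast
      linarith
    exact_mod_cast this
  · have : ((0 : ℤ) : ℝ) < ((⌈(κ.r - κ.β) * n⌉ - 1 : ℤ) : ℝ) := by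
      push_cast
      linarith
    exact_mod_cast this
  · have : ((0 : ℤ) : ℝ) < ((⌈(κ.h - κ.b) * n⌉ - 2 : ℤ) : ℝ) := by
      push_cast
      linarith
    exact_mod_cast this
  · have : ((⌊-((κ.β - κ.l) * n)⌋ + 1 : ℤ) : ℝ) < ((⌊(κ.α - κ.β) * n⌋ + 1 : ℤ) : ℝ) := by
      push_cast
      nlinarith
    have := (Int.cast_lt (R := ℝ)).1 this
    simp only
    omega
  · have : ((⌊(κ.α - κ.β) * n⌋ : ℤ) : ℝ) ≤ ((⌈(κ.r - κ.β) * n⌉ - 1 : ℤ) : ℝ) := by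
      push_cast
      nlinarith
    exact_mod_cast this

theorem dm_sub (κ : Loc) (n : ℕ) : (trl (κ.s n).1 (κ.s n).2).mp (κ.dm n).edges ⊆ RE 0 n 0 n := by
  have h1 := κ.lβ
  have h2 := κ.βr
  have h3 := κ.bh
  have h6 := κ.l0
  have h7 := κ.r1
  have h8 := κ.b0
  have h9 := κ.h1
  have hn' : (0:ℝ) ≤ n := Nat.cast_nonneg n
  have f1 : -((κ.β - κ.l) * n) < (⌊-((κ.β - κ.l) * n)⌋ : ℝ) + 1 := Int.lt_floor_add_one _
  have f2 : (⌈(κ.r - κ.β) * n⌉ : ℝ) < (κ.r - κ.β) * n + 1 := Int.ceil_lt_add_one _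
  have f3 : (⌈(κ.h - κ.b) * n⌉ : ℝ) < (κ.h - κ.b) * n + 1 := Int.ceil_lt_add_one _
  have f4 : (⌊(n : ℝ) * κ.β⌋ : ℝ) ≤ n * κ.β := Int.floor_le _
  have f5 : (n : ℝ) * κ.β < (⌊(n : ℝ) * κ.β⌋ : ℝ) + 1 := Int.lt_floor_add_one _
  have f6 : (⌊(n : ℝ) * κ.b⌋ : ℝ) ≤ n * κ.b := Int.floor_le _
  have f7 : 0 ≤ ⌊(n : ℝ) * κ.b⌋ := Int.floor_nonneg.2 (by positivity)
  have e1 : 0 ≤ ⌊-((κ.β - κ.l) * n)⌋ + 1 + ⌊(n : ℝ) * κ.β⌋ := by
    have : ((-1 : ℤ) : ℝ) < ((⌊-((κ.β - κ.l) * n)⌋ + 1 + ⌊(n : ℝ) * κ.β⌋ : ℤ) : ℝ) := by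
      push_cast
      nlinarith
    have := (Int.cast_lt (R := ℝ)).1 this
    omega
  have e2 : ⌈(κ.r - κ.β) * n⌉ - 1 + ⌊(n : ℝ) * κ.β⌋ ≤ n := by
    have : ((⌈(κ.r - κ.β) * n⌉ - 1 + ⌊(n : ℝ) * κ.β⌋ : ℤ) : ℝ) ≤ ((n : ℤ) : ℝ) := by
      push_cast
      nlinarith
    exact_mod_cast this
  have e3 : ⌈(κ.h - κ.b) * n⌉ - 2 + (⌊(n : ℝ) * κ.b⌋ + 1) ≤ n := by
    have : ((⌈(κ.h - κ.b) * n⌉ - 2 + (⌊(n : ℝ) * κ.b⌋ + 1) : ℤ) : ℝ) ≤ ((n : ℤ) : ℝ) := by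
      push_cast
      nlinarith
    exact_mod_cast this
  unfold Dm.edges
  rw [dm_eq, trl_RE]
  unfold Loc.s
  simp only
  intro e he
  obtain ⟨x, y, b⟩ := e
  cases b
  · rw [mem_RE_false] at he ⊢
    omega
  · rw [mem_RE_true] at he ⊢
    omega

theorem cfg_mp (κ : Loc) (n : ℕ) {F : Finset Edg} (hF : F ⊆ (κ.dm n).edges) :
    κ.cfg n ((trl (κ.s n).1 (κ.s n).2).mp F) = F := by
  ext e
  unfold Loc.cfg
  rw [Finset.mem_filter, sh_eq, bulk_mem]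
  exact ⟨fun h => h.2, fun h => ⟨hF h, h⟩⟩

theorem cfg_inter (κ : Loc) (n : ℕ) (F : Finset Edg) :
    κ.cfg n (F ∩ (trl (κ.s n).1 (κ.s n).2).mp (κ.dm n).edges) = κ.cfg n F := by
  ext e
  unfold Loc.cfg
  rw [Finset.mem_filter, Finset.mem_filter, Finset.mem_inter, sh_eq, bulk_mem]
  tauto

theorem law : S_LAW := by
  intro κ
  obtain ⟨n0, hn0⟩ := dm_ok κ
  refine ⟨n0, fun n hn => ⟨hn0 n hn, ?_⟩⟩
  apply Subtype.ext
  refine Measure.ext fun G hG => ?_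
  have h1 := H342L.lawOf_apply n (κ.Y n) hG
  have h2 := κ.R.law_apply (1 / (n : ℝ)) hG
  refine h1.trans (Eq.trans ?_ h2.symm)
  congr 1
  rw [H342P.Plain.prob_eq]
  unfold Rect.prob H984N.P
  rw [Pr_local (dm_sub κ n) (A := fun F => κ.Y n F ∈ G) (fun F _ => by
    unfold Loc.Y
    rw [cfg_inter])]
  rw [LSym.pr]
  unfold Pr
  refine Ex_congr (fun F hF => ?_)
  unfold Loc.Y
  beta_reduce
  rw [cfg_mp κ n hF]

/-- The polygonal path at the time `j / N`. -/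
theorem poly_at (f : ℕ → ℂ) {N j : ℕ} (hN : 0 < N) (hj : j ≤ N) (t : unitInterval)
    (ht : (t : ℝ) = (j : ℝ) / N) : H342T.poly f N t = f j := by
  have hN' : (N : ℝ) ≠ 0 := by exact_mod_cast hN.ne'
  have h1 : ∀ i ∈ Finset.range N,
      ((max 0 (min 1 ((N : ℝ) * (t : ℝ) - i)) : ℝ) : ℂ) * (f (i + 1) - f i) =
      if i < j then f (i + 1) - f i else 0 := by
    intro i _
    rw [ht, mul_div_cancel₀ _ hN']
    split_ifs with h
    · have h2 : (1:ℝ) ≤ (j : ℝ) - i := by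
        have : ((i + 1 : ℕ) : ℝ) ≤ j := by exact_mod_cast h
        push_cast at this
        linarith
      rw [min_eq_left h2, max_eq_right (by norm_num)]
      simp
    · have h2 : (j : ℝ) - i ≤ 0 := by
        have : (j : ℝ) ≤ i := by exact_mod_cast not_lt.1 h
        linarith
      rw [min_eq_right (by linarith), max_eq_left h2]
      simp
  have h2 : H342T.poly f N t = f 0 + ∑ i ∈ Finset.range N,
      ((max 0 (min 1 ((N : ℝ) * (t : ℝ) - i)) : ℝ) : ℂ) * (f (i + 1) - f i) := rfl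
  rw [h2, Finset.sum_congr rfl h1, ← Finset.sum_filter]
  have h3 : (Finset.range N).filter (fun i => i < j) = Finset.range j := by
    ext i
    simp only [Finset.mem_filter, Finset.mem_range]
    omega
  rw [h3, Finset.sum_range_sub]
  ring

theorem orb_mod {F : Set Edg} {σ : St} {N : ℕ} (h : orb F σ N = σ) (j : ℕ) :
    orb F σ (j % N) = orb F σ j := by
  have h1 : ∀ q r : ℕ, orb F σ (r + N * q) = orb F σ r := by
    intro q
    induction q with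
    | zero => intro r; rw [mul_zero, add_zero]
    | succ q ih =>
      intro r
      rw [mul_add, mul_one, ← add_assoc, orb_add, h, ih]
  conv_rhs => rw [← Nat.mod_add_div j N]
  rw [h1]

theorem perj : S_PERJ := by
  intro n F σ N hN hσ c _ η hd j
  have hN' : (0 : ℝ) < N := by exact_mod_cast hN
  have h1 : Int.fract ((j : ℝ) / N) = ((j % N : ℕ) : ℝ) / N := by
    exact Int.fract_div_natCast_eq_div_natCast_mod
  have h2 : H342T.poly (fun j => H342L.pt n (orb (↑F) σ j).1) N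
      ⟨Int.fract ((j : ℝ) / N), Int.fract_nonneg _, (Int.fract_lt_one _).le⟩ =
      H342L.pt n (orb (↑F) σ j).1 := by
    rw [poly_at _ hN (Nat.mod_lt j hN).le _ h1, orb_mod hσ]
  rw [← h2]
  unfold per
  exact lt_of_le_of_lt (ContinuousMap.dist_apply_le_dist _) hd

end Pool.Agent.Y995.LG
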