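import Pool.Agent.Y995.LG.Stm
import Pool.Agent.H984R4.NP.AllOkOf
import Pool.Agent.H984R4.NP.Det
import Pool.Agent.H984R3.Per.PerBig
import Pool.Agent.H984R3.Per.Layer2
import Pool.Agent.Results.MP_6bd702_pr.PerimeterExponent

/-!
Subpaths of large diameter have many steps.
-/

set_option autoImplicit false

namespace Pool.Agent.Y995.LG

open H974 Finset H342P H984P H984N MeasureTheory Filter Topology

/-- One step of an orbit. -/
theorem orb_step1 (F : Set Edg) (σ : St) (k : ℕ) : sd (orb F σ k).1 (orb F σ (k + 1)).1 ≤ 1 := by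
  rw [orb_succ]
  have h := nxt_fst F (orb F σ k)
  unfold sd
  rw [abs_sub_comm, abs_sub_comm (orb F σ k).1.2]
  exact max_le h.1 h.2

/-- A fast subpath of large diameter is in a layer or fast in the bulk. -/
theorem mod_det {n : ℕ} {F : Set Edg} {R1 m R W : ℤ} {a M : ℕ} (hlay : ¬ LayEv n R1 m F)
    (hm : 0 ≤ m) (hR1 : 3 * R + 60 * a ≤ R1) (hR : R + m + 1 ≤ W) {σ : St} {t : ℕ}
    (ht : t < M) (hW : W ≤ sd σ.1 (orb F σ t).1) (hRp : 0 ≤ R) :
    ∃ (σ' : St) (t' : ℕ),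
      inR (3 * R + 60 * a) (n - 3 * R - 60 * a) (3 * R + 60 * a) (n - 3 * R - 60 * a) σ'.1 ∧
      Far σ'.1 R (orb F σ' t').1 ∧ t' < M := by
  obtain ⟨T, -, hTt, hTm, hTs⟩ := det_first (fun s => (orb F σ s).1) (fun s => orb_step1 F σ s)
    (w := m) (j := 0) (l := t) (Nat.zero_le _) (by
      have : W ≤ sd (orb F σ 0).1 (orb F σ t).1 := by rw [orb_zero]; exact hW
      linarith)
  have hfar : m ≤ |σ.1.1 - (orb F σ T).1.1| ∨ m ≤ |σ.1.2 - (orb F σ T).1.2| := by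
    simp only [orb_zero] at hTm
    unfold sd at hTm
    exact le_max_iff.1 hTm
  obtain ⟨s, hs, hin⟩ := pb_leave hlay hfar
  have h1 : sd σ.1 (orb F σ s).1 ≤ m := by
    have := hTs s (Nat.zero_le _) hs
    simp only [orb_zero] at this
    rwa [max_eq_left hm] at this
  have h2 := det_sd_tri σ.1 (orb F σ s).1 (orb F σ t).1
  refine ⟨orb F σ s, t - s, ?_, ?_, by omega⟩
  · unfold inR at hin ⊢
    omega
  · rw [← orb_add]
    have : t - s + s = t := by omega
    rw [this]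
    exact det_far (by linarith)

theorem choose_m {c ε : ℝ} (hε : 0 < ε) : ∃ m : ℕ, (c * ((m : ℝ) + 3) + 8) * (1 / 2) ^ m ≤ ε := by
  have h1 : Tendsto (fun m : ℕ => ((m : ℝ)) ^ 1 * (1 / 2 : ℝ) ^ m) atTop (𝓝 0) :=
    tendsto_pow_const_mul_const_pow_of_abs_lt_one 1 (by rw [abs_of_pos] <;> norm_num)
  have h2 : Tendsto (fun m : ℕ => (1 / 2 : ℝ) ^ m) atTop (𝓝 0) :=
    tendsto_pow_atTop_nhds_zero_of_lt_one (by norm_num) (by norm_num)
  have h3 := (h1.const_mul c).add (h2.const_mul (c * 3 + 8))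
  simp only [mul_zero, add_zero, pow_one] at h3
  obtain ⟨m, hm⟩ := (h3.eventually (gt_mem_nhds hε)).exists
  refine ⟨m, le_trans (le_of_eq ?_) hm.le⟩
  ring

theorem choose_K {C B δ ε : ℝ} (hδ : 0 < δ) (hδ1 : δ ≤ 1) (hε : 0 < ε) :
    ∃ K : ℕ, 1 ≤ K ∧ C * (B * K + 1) ^ 2 * (1 - δ) ^ (K - 1) ≤ ε := by
  have hq : |1 - δ| < 1 := by
    rw [abs_lt]
    constructor <;> linarith
  have h1 := tendsto_pow_const_mul_const_pow_of_abs_lt_one 2 hq
  have h2 := tendsto_pow_const_mul_const_pow_of_abs_lt_one 1 hq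
  have h3 := tendsto_pow_const_mul_const_pow_of_abs_lt_one 0 hq
  have h4 := ((h1.const_mul (C * B ^ 2)).add (h2.const_mul (2 * C * B * (B + 1)))).add
    (h3.const_mul (C * (B + 1) ^ 2))
  simp only [mul_zero, add_zero] at h4
  obtain ⟨K, hK⟩ := (h4.eventually (gt_mem_nhds hε)).exists
  refine ⟨K + 1, by omega, le_trans (le_of_eq ?_) hK.le⟩
  rw [Nat.add_sub_cancel]
  push_cast
  ring

theorem mod : S_MOD := by
  have hok : Ok (fun _ : Edg => (1/2:ℝ)) := fun _ => ⟨by norm_num, by norm_num⟩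
  obtain ⟨⟨c, hc, hL⟩, C, hC, hU⟩ := Pool.Agent.Results.MP_6bd702_pr.PerimeterExponent.inputs
  obtain ⟨c', δ, hc', hδ0, hδ1, hall⟩ := allOk_of hc hC hL hU
  obtain ⟨C1, hC1, hlow⟩ := low_steps
  intro w0 ε hw0 hε
  -- smaller `w`
  obtain ⟨w, hw⟩ : ∃ w : ℝ, w = min w0 1 := ⟨_, rfl⟩
  have hwp : 0 < w := by rw [hw]; exact lt_min hw0 one_pos
  have hw1 : w ≤ 1 := by rw [hw]; exact min_le_right _ _
  have hww : w ≤ w0 := by rw [hw]; exact min_le_left _ _
  obtain ⟨m', hm'⟩ := choose_m (c := 4 * (128 / w)) (ε := ε / 2) (by linarith)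
  obtain ⟨q, hq⟩ : ∃ q : ℝ, q = (m' : ℝ) + 3 := ⟨_, rfl⟩
  have hq3 : 3 ≤ q := by rw [hq]; have : (0:ℝ) ≤ m' := Nat.cast_nonneg _; linarith
  obtain ⟨B, hB⟩ : ∃ B : ℝ, B = 864 * (128 * q / w) := ⟨_, rfl⟩
  have hBp : 0 < B := by rw [hB]; positivity
  obtain ⟨K, hK1, hK⟩ := choose_K (C := C1) (B := B) (δ := δ) (ε := ε / 2) hδ0 hδ1 (by linarith)
  have hKr : (1:ℝ) ≤ K := by exact_mod_cast hK1
  have hBK : 0 < B * K := by positivity
  obtain ⟨n0, hn0⟩ := exists_nat_gt (10 * (B * K) + 1000 * (128 * q / w))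
  refine ⟨c' * (1 / (B * K)) ^ (7/4 : ℝ), n0, by positivity, fun n hn => ?_⟩
  have hnr : 10 * (B * K) + 1000 * (128 * q / w) < n := by
    have : (n0 : ℝ) ≤ n := by exact_mod_cast hn
    linarith
  have hx0 : 0 < 128 * q / w := by positivity
  have hn0' : (0:ℝ) < n := by linarith [hBK]
  -- the width of the layer
  obtain ⟨R1, hR1⟩ : ∃ R1 : ℕ, R1 = ⌊w * n / (64 * q)⌋₊ := ⟨_, rfl⟩
  have hR1u : (R1 : ℝ) ≤ w * n / (64 * q) := by rw [hR1]; exact Nat.floor_le (by positivity)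
  have hR1l : w * n / (64 * q) < (R1 : ℝ) + 1 := by rw [hR1]; exact Nat.lt_floor_add_one _
  have hwn : 1000 * 128 * q < w * n := by
    have h1 : 1000 * (128 * q / w) < n := by linarith [hBK]
    have h2 : 1000 * (128 * q / w) * w < n * w := mul_lt_mul_of_pos_right h1 hwp
    have h3 : 1000 * (128 * q / w) * w = 1000 * 128 * q := by field_simp
    linarith
  have hR1g : 2000 ≤ w * n / (64 * q) := by
    rw [le_div_iff₀ (by positivity)]
    linarith
  have hR1h : w * n / (128 * q) ≤ R1 := by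
    have h1 : w * n / (128 * q) = w * n / (64 * q) / 2 := by
      rw [div_div]
      congr 1
      ring
    rw [h1]
    linarith
  have hR1p : (0:ℝ) < R1 := by linarith
  have hR1one : 1 ≤ R1 := by
    have : (0:ℝ) < R1 := hR1p
    exact_mod_cast this
  have hnR1 : (n : ℝ) / R1 ≤ 128 * q / w := by
    rw [div_le_iff₀ hR1p]
    calc (n : ℝ) = 128 * q / w * (w * n / (128 * q)) := by field_simp
      _ ≤ 128 * q / w * R1 := mul_le_mul_of_nonneg_left hR1h hx0.le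
  -- the extent in the layer
  obtain ⟨m, hm⟩ : ∃ m : ℤ, m = ⌊w * n / 4⌋ := ⟨_, rfl⟩
  have hmu : (m : ℝ) ≤ w * n / 4 := by rw [hm]; exact Int.floor_le _
  have hml : w * n / 4 < (m : ℝ) + 1 := by rw [hm]; exact Int.lt_floor_add_one _
  have hlayc : 2 * ((m' : ℤ) + 3) * ((R1 : ℤ) + 1) + 4 * (R1 : ℤ) ≤ m := by
    have h1 : (2 * q * ((R1 : ℝ) + 1) + 4 * R1 : ℝ) ≤ m := by
      have h2 : (R1 : ℝ) + 1 ≤ 2 * R1 := by
        have : (1:ℝ) ≤ R1 := by exact_mod_cast hR1one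
        linarith
      have h3 : q * (R1 : ℝ) ≤ w * n / 64 := by
        calc q * (R1 : ℝ) ≤ q * (w * n / (64 * q)) := mul_le_mul_of_nonneg_left hR1u (by linarith)
          _ = w * n / 64 := by field_simp
      have h4 : 2 * q * ((R1 : ℝ) + 1) ≤ 2 * q * (2 * R1) :=
        mul_le_mul_of_nonneg_left h2 (by linarith)
      have h5 : 3 * (R1 : ℝ) ≤ q * R1 := mul_le_mul_of_nonneg_right hq3 hR1p.le
      nlinarith
    rw [hq] at h1
    exact_mod_cast h1
  have hlay := layer_prob2 (n := n) (m := m') (R := (R1 : ℤ)) (w := m) (by exact_mod_cast hR1one)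
    hlayc
  -- the bulk
  obtain ⟨a, ha⟩ : ∃ a : ℕ, a = R1 / (432 * K) := ⟨_, rfl⟩
  have hau : a * (432 * K) ≤ R1 := by rw [ha]; exact Nat.div_mul_le_self _ _
  have hal : R1 < (a + 1) * (432 * K) := by
    rw [ha]
    have := Nat.lt_div_mul_add (a := R1) (b := 432 * K) (by omega)
    linarith
  have hR1B : 10 * (864 * K) ≤ (R1 : ℝ) := by
    have h1 : 10 * (B * K) ≤ n := by linarith
    have h2 : B * K = 864 * K * (128 * q / w) := by rw [hB]; ring
    rw [h2] at h1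
    have h3 : (n : ℝ) ≤ 128 * q / w * R1 := by
      rwa [div_le_iff₀ hR1p] at hnR1
    have h4 : (128 * q / w) * (10 * (864 * K)) ≤ (128 * q / w) * R1 := by linarith
    exact le_of_mul_le_mul_left h4 hx0
  have ha5 : 5 ≤ a := by
    by_contra hcon
    push Not at hcon
    have h1 : R1 < 5 * (432 * K) := by
      have : (a + 1) * (432 * K) ≤ 5 * (432 * K) := Nat.mul_le_mul_right _ (by omega)
      omega
    have h2 : (R1 : ℝ) < 5 * (432 * K) := by exact_mod_cast h1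
    linarith
  have har : (5:ℝ) ≤ a := by exact_mod_cast ha5
  have haR : (R1 : ℝ) ≤ 864 * K * a := by
    have h1 : (R1 : ℝ) < (a + 1) * (432 * K) := by exact_mod_cast hal
    have h2 : ((a : ℝ) + 1) * (432 * K) ≤ (2 * a) * (432 * K) :=
      mul_le_mul_of_nonneg_right (by linarith) (by positivity)
    linarith
  have hap : (0:ℝ) < a := by linarith
  have hna : (n : ℝ) / a ≤ B * K := by
    rw [div_le_iff₀ hap]
    have h3 : (n : ℝ) ≤ 128 * q / w * R1 := by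
      rwa [div_le_iff₀ hR1p] at hnR1
    calc (n : ℝ) ≤ 128 * q / w * R1 := h3
      _ ≤ 128 * q / w * (864 * K * a) := mul_le_mul_of_nonneg_left haR hx0.le
      _ = B * K * a := by rw [hB]; ring
  obtain ⟨R, hR⟩ : ∃ R : ℤ, R = 121 * a * K + a + 2 := ⟨_, rfl⟩
  have hKz : (1:ℤ) ≤ K := by exact_mod_cast hK1
  have ha5z : (5:ℤ) ≤ a := by exact_mod_cast ha5
  have haK : (a:ℤ) ≤ a * K := by nlinarith
  have hR1z : (a:ℤ) * (432 * K) ≤ R1 := by exact_mod_cast hau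
  have hRR1 : 3 * R + 60 * a ≤ R1 := by
    rw [hR]
    nlinarith
  have hRp : 0 ≤ R := by rw [hR]; positivity
  have hbulk := hlow n a K _ δ R ha5 hK1 hδ0.le hδ1 (hall n a (by omega)) (by rw [hR])
  set M := ⌈c' * (a:ℝ) ^ (7/4 : ℝ)⌉₊ with hM
  have hθ : c' * (1 / (B * K)) ^ (7/4 : ℝ) * (n : ℝ) ^ (7/4 : ℝ) ≤ M := by
    refine le_trans ?_ (Nat.le_ceil _)
    rw [mul_assoc, ← Real.mul_rpow (by positivity) hn0'.le]
    refine mul_le_mul_of_nonneg_left (Real.rpow_le_rpow (by positivity) ?_ (by norm_num)) hc'.le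
    rw [one_div_mul_eq_div, div_le_iff₀ hBK]
    rw [div_le_iff₀ hap] at hna
    linarith
  -- conclusion
  rw [H342P.Plain.prob_eq]
  have hsplit : Pr (fun _ => (1/2:ℝ)) (RE 0 n 0 n) (fun F => ∃ (v : ℤ × ℤ) (σ : St) (t : ℕ),
      H342P.Plain.Largest n F v ∧ σ.1 ∈ H342P.Plain.cluster F v ∧
      H342P.Plain.Outer F v (face σ) ∧ w0 * n ≤ (sd σ.1 (orb (↑F) σ t).1 : ℝ) ∧
      (t : ℝ) < c' * (1 / (B * K)) ^ (7/4 : ℝ) * (n : ℝ) ^ (7/4 : ℝ)) ≤
      Pr (fun _ => (1/2:ℝ)) (RE 0 n 0 n) (fun F => LayEv n (R1 : ℤ) m (↑F)) +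
      Pr (fun _ => (1/2:ℝ)) (RE 0 n 0 n) (fun F => ∃ (σ : St) (t : ℕ),
      inR (3 * R + 60 * a) (n - 3 * R - 60 * a) (3 * R + 60 * a) (n - 3 * R - 60 * a) σ.1 ∧
      Far σ.1 R (orb (↑F) σ t).1 ∧ t < M) := by
    refine le_trans (Pr_mono hok ?_) (Pr_or_le hok _ _ _)
    rintro F _ ⟨v, σ, t, -, -, -, h1, h2⟩
    by_cases hl : LayEv n (R1 : ℤ) m (↑F : Set Edg)
    · exact Or.inl hl
    · right
      have htM : t < M := by
        have : (t : ℝ) < M := lt_of_lt_of_le h2 hθ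
        exact_mod_cast this
      have hm0 : 0 ≤ m := by
        rw [hm]
        exact Int.floor_nonneg.2 (by positivity)
      have hWr : ((R + m + 1 : ℤ) : ℝ) ≤ w0 * n := by
        have g1 : (R : ℝ) ≤ R1 := by
          have : R ≤ R1 := by linarith
          exact_mod_cast this
        have g2 : (R1 : ℝ) ≤ w * n / 64 := by
          refine hR1u.trans ?_
          refine div_le_div_of_nonneg_left (by positivity) (by norm_num) ?_
          linarith
        have g3 : w * n ≤ w0 * n := mul_le_mul_of_nonneg_right hww hn0'.le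
        push_cast
        nlinarith
      have hW : R + m + 1 ≤ sd σ.1 (orb (↑F) σ t).1 := by
        have := hWr.trans h1
        exact_mod_cast this
      exact mod_det hl hm0 hRR1 le_rfl htM hW hRp
  refine hsplit.trans ?_
  have e1 : 4 * ((n:ℝ) / ((R1 : ℤ) : ℝ) + 2) * (1/2) ^ m' ≤ ε / 2 := by
    refine le_trans ?_ hm'
    refine mul_le_mul_of_nonneg_right ?_ (by positivity)
    have h1 : (((R1 : ℤ)) : ℝ) = (R1 : ℝ) := by push_cast; rfl
    rw [h1, ← hq]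
    have h2 : 4 * (128 / w) * q = 4 * (128 * q / w) := by ring
    rw [h2]
    linarith
  have e2 : C1 * ((n:ℝ) / a + 1) ^ 2 * (1 - δ) ^ (K - 1) ≤ ε / 2 := by
    refine le_trans ?_ hK
    refine mul_le_mul_of_nonneg_right ?_ (pow_nonneg (by linarith) _)
    refine mul_le_mul_of_nonneg_left ?_ hC1.le
    exact pow_le_pow_left₀ (by positivity) (by linarith) 2
  linarith

end Pool.Agent.Y995.LG
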