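import Pool.Agent.Y995.LG.Fin2
import Pool.Agent.Y995.LG.Cur
import Pool.Agent.Y995.LG.D1
import Pool.Agent.Y995.LG.Law
import Pool.Agent.Y995.LG.Mod
import Pool.Agent.Y995.LG.Dims
import Pool.Agent.Y523.LG.Geo
import Pool.Agent.Y584.LG.Exit
import Pool.Agent.Y584.LG.Split
import Pool.Agent.Y260.LG.Seg
import Pool.Agent.Y495.LG.Gena
import Pool.Agent.Y259.LG.GenB
import Pool.Agent.Y185.LG.Local
import Pool.Agent.Y431.LG.Glob
import Pool.Agent.Y431.LG.Gl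
import Pool.Agent.Y945.LG.Cnt
import Pool.Agent.Y381.LG.UpnBdn
import Pool.Agent.Y500.LG.Bdry
import Pool.Agent.Y891.LG.Tight
import Pool.Agent.Y995.TP.FastTop

/-!
The scaling limits of the outer perimeter in the natural parametrisation.
-/

set_option autoImplicit false

namespace Pool.Agent.Y995.LG

open H984P H984N MeasureTheory Filter Topology Pool.Agent.Y995.HG
open scoped ENNReal

theorem perj0 : S_PERJ := perj

theorem exit0 : S_EXIT := Pool.Agent.Y584.LG.exit Pool.Agent.Y523.LG.geo perj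

theorem seg0 : S_SEG := Pool.Agent.Y260.LG.seg d1 sh' perj exit0 law

theorem bdry0 : S_BDRY := Pool.Agent.Y500.LG.bdry (Pool.Agent.Y381.LG.bdn Pool.Agent.Y945.LG.cnt)

theorem tight0 : S_TIGHT := Pool.Agent.Y891.LG.tight mod (Pool.Agent.Y381.LG.upn Pool.Agent.Y945.LG.cnt)

/-- The limits. -/
theorem top (hUNI : S_UNI) (hFAST : S_FAST) :
    ∃ c C c' C' θ0 : ℝ, 0 < c ∧ 0 < C ∧ 0 < c' ∧ 0 < C' ∧ 0 < θ0 ∧ C' * θ0 ^ (7/3 : ℝ) < 1 ∧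
    ∀ (sel : (n : ℕ) → Finset Edge → ℤ × ℤ) (f : (n : ℕ) → Finset Edge → X), Sel sel f →
      ∀ k : ℕ → ℕ, Tendsto k atTop atTop → ∀ μ : ProbabilityMeasure X,
      Tendsto (fun i => H342L.lawOf (k i) (f (k i))) atTop (𝓝 μ) →
      ∀ᵐ p ∂(μ : Measure X), p.1 0 = p.1 1 ∧ 0 < p.2 ∧
        volume {t : unitInterval | p.1 t ∉ sq} = 0 ∧ (∀ t, p.1 t ∈ closure sq) ∧
        GI (Measure.mkMetric gm) c C p ∧
        (∀ E : Set unitInterval, (∀ t ∈ E, p.1 t ∈ sq) → dimH (p.1 '' E) = 7 / 4 * dimH E) ∧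
        dimH {t : unitInterval | p.1 t ∈ dbl p.1 ∩ sq} = 3 / 7 ∧
        ∀ θ : ℝ, 0 < θ → θ ≤ θ0 → ∀ s t : unitInterval, s < t →
          ENNReal.ofReal (1 - C' * θ ^ (7/3 : ℝ)) ≤
            dimH {u | u ∈ Set.Icc s t ∧ p.1 u ∈ sq ∧ u ∈ Ft θ p} ∧
          dimH {u | u ∈ Set.Icc s t ∧ p.1 u ∈ sq ∧ u ∈ Ft θ p} ≤
            ENNReal.ofReal (1 - c' * θ ^ (7/3 : ℝ)) := by
  obtain ⟨c, C, hc, hC, hgs⟩ := gauge_sets
  obtain ⟨c', C', θ0, hc', hC', hθ0, hCθ, hft⟩ := Pool.Agent.Y995.TP.fast_top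
  refine ⟨c, C, c', C', θ0, hc, hC, hc', hC', hθ0, hCθ, fun sel f hsel k hk μ hμ => ?_⟩
  have htr := transfer seg0 Pool.Agent.Y584.LG.split Pool.Agent.Y495.LG.gena Pool.Agent.Y259.LG.genb
    law Pool.Agent.Y431.LG.gl diag cur (fun R => (hgs R).1)
    (G := {q : X | GI (Measure.mkMetric gm) c C q} ∩ FG c' C' θ0)
    (fun R δ hδ hlim ν hν => by
      filter_upwards [(hgs R).2 δ hδ hlim ν hν, (hft R).2 δ hδ hlim ν hν] with q q1 q2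
      exact ⟨q1, q2⟩) hsel hk hμ
  filter_upwards [htr, cur sel f hsel k hk μ hμ, cur2 sel f hsel k hk μ hμ,
    bdry0 sel f hsel k hk μ hμ] with p p1 p2 p3 p4
  obtain ⟨h0, hdim, hdbl⟩ := p2
  obtain ⟨hex, hv0, hGI⟩ := gauge_one Pool.Agent.Y185.LG.loc Pool.Agent.Y431.LG.glob nul bd bdim hc hC
    (fun q hq => hq.1) h0 hdim hdbl p4.1 p4.2 p1
  have huni := hUNI _ p (fun q hq => ⟨hq.2.1, hq.2.2.1⟩) h0 hex p1
  refine ⟨h0, hGI.1, hv0, p4.1, hGI, huni, ?_, hFAST c' C' θ0 _ p (fun q hq => hq.2) h0 hex hv0 p1⟩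
  have h1 := huni {t | p.1 t ∈ dbl p.1 ∩ sq} (fun t ht => ht.2)
  have h2 : p.1 '' {t : unitInterval | p.1 t ∈ dbl p.1 ∩ sq} = dbl p.1 ∩ sq := by
    ext z
    constructor
    · rintro ⟨t, ht, rfl⟩
      exact ht
    · rintro ⟨hz, hz2⟩
      obtain ⟨s, t, hst, hs, ht, hh⟩ := hz
      refine ⟨s, ?_, hs⟩
      show p.1 s ∈ dbl p.1 ∩ sq
      rw [hs]
      exact ⟨⟨s, t, hst, hs, ht, hh⟩, hz2⟩
  rw [h2, p3] at h1
  have h3 : (4 / 7 : ℝ≥0∞) * (3 / 4) = 4 / 7 * (7 / 4 * dimH {t : unitInterval | p.1 t ∈ dbl p.1 ∩ sq}) := by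
    rw [← h1]
  have e47 : (4 / 7 : ℝ≥0∞) = ENNReal.ofReal (4/7) := by
    rw [ENNReal.ofReal_div_of_pos (by norm_num)]
    norm_num
  have e37 : (3 / 7 : ℝ≥0∞) = ENNReal.ofReal (3/7) := by
    rw [ENNReal.ofReal_div_of_pos (by norm_num)]
    norm_num
  rw [← mul_assoc, e47, e34, e74, ← ENNReal.ofReal_mul (by norm_num),
    ← ENNReal.ofReal_mul (by norm_num)] at h3
  have e1 : (4 / 7 : ℝ) * (7 / 4) = 1 := by norm_num
  have e2 : (4 / 7 : ℝ) * (3 / 4) = 3 / 7 := by norm_num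
  rw [e1, e2, ENNReal.ofReal_one, one_mul] at h3
  rw [e37]
  exact h3.symm

end Pool.Agent.Y995.LG
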